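import Pool.Agent.MP_e258b5_gt.Poset

namespace Pool.Agent.MP_e258b5_gt

open Set Filter Cond Cardinal

/-- The forcing is bounding. -/
theorem bound (Φ : ℕ → ℕ → Cond → Prop) (m₁ : ∀ i m m' t, m ≤ m' → Φ i m t → Φ i m' t)
    (m₂ : ∀ i m t t', t' ≤ t → Φ i m t → Φ i m t') (r : Cond)
    (dense : ∀ i, ∀ t ≤ r, ∃ t' ≤ t, ∃ m, Φ i m t') :
    ∃ q ≤ r, ∃ g : ℕ → ℕ, ∀ i, ∀ t ≤ q, ∃ t' ≤ t, Φ i (g i) t' := by
  classical
  obtain ⟨st, r', F, LY, LA, q, -, hq, hq', hR, -⟩ := fusion (St := ℕ) (fun _ t => t ≤ r)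
    (fun k _ _ _ _ m t => ∀ u ≤ t, ∃ u' ≤ u, Φ k m u') (by
      intro k _ t F _ _ ht hF _
      obtain ⟨t', h₁, h₂⟩ := amalg F F.powerset (fun _ u => ∃ m, Φ k m u)
        (fun _ _ _ h ⟨m, hm⟩ => ⟨m, m₂ _ _ _ _ h hm⟩) t hF
        fun σ _ u hu => dense k u (hu.trans ((fill_le _ _ _).trans ht))
      choose! m hm using h₂
      refine ⟨F.powerset.sup m, t', h₁, h₁.1.trans ht, fun u hu => ?_⟩
      obtain ⟨σ, hσ, u', h₃, h₄⟩ := cover F hu
      exact ⟨u', h₃, m₁ _ _ _ _ (Finset.le_sup hσ) (m₂ _ _ _ _ h₄ (hm σ hσ))⟩) 0 r le_rfl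
  exact ⟨q, hq, fun i => st (i + 1), fun i t ht => hR i t (ht.trans (hq' _))⟩

section Tall

variable (In : Cond → ℕ → Prop)

/-- `t` forces that the generic set meets `Z` in an infinite set. -/
def BigIn (t : Cond) (Z : Set ℕ) : Prop := ∀ m, ∀ u ≤ t, ∃ u' ≤ u, ∃ n ∈ Z, m ≤ n ∧ In u' n

variable {In}

theorem BigIn.mono {t t' : Cond} {Z Z' : Set ℕ} (h : BigIn In t Z) (ht : t' ≤ t) (hZ : Z ⊆ Z') :
    BigIn In t' Z' := fun m u hu =>
  let ⟨u', h₁, n, h₂, h₃⟩ := h m u (hu.trans ht)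
  ⟨u', h₁, n, hZ h₂, h₃⟩

variable (mono : ∀ t t' n, t' ≤ t → In t n → In t' n)
include mono

theorem refine_one {t : Cond} {Z : Set ℕ} (h : BigIn In t Z) (c : ℕ → ℕ) :
    ∃ t' ≤ t, ∃ Z' ⊆ Z, BigIn In t' Z' ∧ Good Z' c := by
  by_cases h₁ : ∃ i, ∃ t' ≤ t, BigIn In t' {n | n ∈ Z ∧ c n = i}
  · obtain ⟨i, t', ht, hB⟩ := h₁
    refine ⟨t', ht, _, fun n hn => hn.1, hB, ?_⟩
    filter_upwards [eventually_gt_atTop i] with j hj
    refine finite_empty.subset ?_
    rintro n ⟨⟨-, e⟩, e'⟩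
    omega
  · push Not at h₁
    obtain ⟨q, hq, g, hg⟩ := bound
      (fun i m u => ∀ u' ≤ u, ∀ n ∈ Z, c n = i → m ≤ n → ¬ In u' n)
      (fun i m m' t hm h u hu n hn e h' => h u hu n hn e (hm.trans h'))
      (fun i m t t' ht h u hu => h u (hu.trans ht)) t (by
        intro i u hu
        have := h₁ i u hu
        simp only [BigIn, not_forall, not_exists, not_and] at this
        obtain ⟨m, u', hu', H⟩ := this
        exact ⟨u', hu', m, fun v hv n hn e h' => H v hv n ⟨hn, e⟩ h'⟩)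
    refine ⟨q, hq, {n | n ∈ Z ∧ n < g (c n)}, fun n hn => hn.1, fun m u hu => ?_,
      Eventually.of_forall fun i => (finite_Iio (g i)).subset ?_⟩
    · obtain ⟨u', h₂, n, h₃, h₄, h₅⟩ := h m u (hu.trans hq)
      refine ⟨u', h₂, n, ⟨h₃, ?_⟩, h₄, h₅⟩
      by_contra h₆
      obtain ⟨v, hv, H⟩ := hg (c n) u' (h₂.trans hu)
      exact H v le_rfl n h₃ rfl (not_lt.1 h₆) (mono _ _ _ hv h₅)
    · rintro n ⟨⟨-, h₂⟩, rfl⟩
      exact h₂

theorem refine_fin {t : Cond} {Z : Set ℕ} (h : BigIn In t Z) (L : Finset (ℕ → ℕ)) :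
    ∃ t' ≤ t, ∃ Z' ⊆ Z, BigIn In t' Z' ∧ ∀ c ∈ L, Good Z' c := by
  classical
  induction L using Finset.induction_on with
  | empty => exact ⟨t, le_rfl, Z, subset_rfl, h, by simp⟩
  | insert c L _ ih =>
    obtain ⟨t₁, h₁, Z₁, h₂, h₃, h₄⟩ := ih
    obtain ⟨t₂, h₅, Z₂, h₆, h₇, h₈⟩ := refine_one mono h₃ c
    refine ⟨t₂, h₅.trans h₁, Z₂, h₆.trans h₂, h₇, fun c' hc' => ?_⟩
    rcases Finset.mem_insert.1 hc' with rfl | hc'
    exacts [h₈, (h₄ c' hc').mono h₆]

/-- Every infinite set of the extension is met infinitely often by a member of the generic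
family. -/
theorem tall {r : Cond} (h : BigIn In r univ) : ∃ q ≤ r, ∃ y ∈ q.Y, BigIn In q y := by
  classical
  obtain ⟨r₀, hr₀, Z₀, -, hB₀, hG₀⟩ := refine_one mono h c0
  obtain ⟨st, r', F, LY, LA, q, e₀, hq, hq', hR, -, -, hA⟩ := fusion (St := Set ℕ × Set ℕ)
    (fun st t => BigIn In t st.1)
    (fun k st _ _ LA st' t => st'.1 ⊆ st.1 ∧ (∀ c ∈ LA, Good st'.1 c) ∧ st'.2.Finite ∧
      st'.2 ⊆ st'.1 ∧ ∀ u ≤ t, ∃ u' ≤ u, ∃ n ∈ st'.2, k ≤ n ∧ In u' n) (by
      intro k st t F _ LA ht hF _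
      obtain ⟨t', h₁, h₂⟩ := amalg F F.powerset (fun _ u => ∃ x : Set ℕ × ℕ, x.1 ⊆ st.1 ∧
          BigIn In u x.1 ∧ (∀ c ∈ LA, Good x.1 c) ∧ x.2 ∈ x.1 ∧ k ≤ x.2 ∧ In u x.2)
        (fun _ _ _ h ⟨x, a, b, c, d, e, f⟩ => ⟨x, a, b.mono h subset_rfl, c, d, e, mono _ _ _ h f⟩)
        t hF fun σ _ u hu => by
          obtain ⟨u₁, a, Z', b, c, d⟩ :=
            refine_fin mono (ht.mono (hu.trans (fill_le _ _ _)) subset_rfl) LA
          obtain ⟨u₂, e, n, f, g, i⟩ := c k u₁ le_rfl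
          exact ⟨u₂, e.trans a, (Z', n), b, c.mono e subset_rfl, d, f, g, i⟩
      choose! x a b c d e f using h₂
      have hfin : (F.powerset : Set (Finset (K × ℕ))).Finite := Finset.finite_toSet _
      refine ⟨(⋃ σ ∈ (F.powerset : Set (Finset (K × ℕ))), (x σ).1,
        (fun σ => (x σ).2) '' F.powerset), t', h₁, fun m u hu => ?_,
        iUnion₂_subset fun σ hσ => a σ hσ, fun c' hc' => Good.biUnion hfin fun σ hσ => c σ hσ c' hc',
        hfin.image _, ?_, fun u hu => ?_⟩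
      · obtain ⟨σ, hσ, u', h₃, h₄⟩ := cover F hu
        obtain ⟨v, h₅, n, h₆, h₇⟩ := b σ hσ m u' h₄
        exact ⟨v, h₅.trans h₃, n, mem_biUnion (by simpa using hσ) h₆, h₇⟩
      · rintro _ ⟨σ, hσ, rfl⟩
        exact mem_biUnion hσ (d σ hσ)
      · obtain ⟨σ, hσ, u', h₃, h₄⟩ := cover F hu
        exact ⟨u', h₃, _, ⟨σ, hσ, rfl⟩, e σ hσ, mono _ _ _ h₄ (f σ hσ)⟩)
    (Z₀, ∅) r₀ hB₀
  have anti : Antitone fun k => (st k).1 := antitone_nat_of_succ_le fun k => (hR k).1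
  have key : ∀ k c, Good (st k).1 c → Good (⋃ j, (st (j + 1)).2) c := by
    intro k c hc
    refine ((Good.of_finite ((finite_Iio k).biUnion fun j _ => (hR j).2.2.1) c).union hc).mono ?_
    intro n hn
    obtain ⟨j, hj⟩ := mem_iUnion.1 hn
    rcases lt_or_ge j k with h' | h'
    · exact Or.inl (mem_biUnion h' hj)
    · exact Or.inr (anti (by omega : k ≤ j + 1) ((hR j).2.2.2.1 hj))
  have hy : Good (⋃ j, (st (j + 1)).2) c0 := key 0 _ (by rw [e₀]; exact hG₀)
  have hle : q.addY _ hy ≤ q := addY_le q hy fun c hc => by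
    obtain ⟨k, hk⟩ := (hA c hc).exists
    exact key (k + 1) c ((hR k).2.1 c hk)
  refine ⟨q.addY _ hy, hle.trans (hq.trans hr₀), _, mem_insert _ _, fun m u hu => ?_⟩
  obtain ⟨u', h₁, n, h₂, h₃⟩ := (hR m).2.2.2.2 u (hu.trans (hle.trans (hq' _)))
  exact ⟨u', h₁, n, mem_iUnion.2 ⟨m, h₂⟩, h₃⟩

end Tall

/-! ### Closing off -/

theorem closing {L : Type} (hL : #L ≤ 𝔠) (ψ : (ℕ → K) → L → K) :
    ∃ A : Set K, #A ≤ 𝔠 ∧ A.Nonempty ∧ ∀ ρ : ℕ → K, (∀ i, ρ i ∈ A) → ∀ l, ψ ρ l ∈ A := by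
  let β : Option L → Type := fun o => match o with | none => Empty | some _ => ℕ
  let ev : WType β → K := WType.elim K fun x => match x with
    | ⟨none, _⟩ => ∅
    | ⟨some l, f⟩ => ψ f l
  refine ⟨range ev, mk_range_le.trans (WType.cardinalMk_le_of_le ?_),
    ⟨_, WType.mk none Empty.elim, rfl⟩, fun ρ hρ l => ?_⟩
  · refine (sum_le_sum _ (fun _ => 𝔠) fun o => ?_).trans ?_
    · cases o with
      | none => simpa [β] using one_le_aleph0.trans aleph0_le_continuum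
      | some l => simp [β]
    · rw [sum_const', mk_option]
      refine (mul_le_mul_left (add_le_add hL (one_le_aleph0.trans aleph0_le_continuum)) _).trans ?_
      simp
  · choose f hf using hρ
    refine ⟨WType.mk (some l) f, ?_⟩
    simp only [ev, WType.elim]
    congr 1
    funext i
    exact hf i

theorem mk_ctble_le {X : Type} (hX : #X ≤ 𝔠) : #{S : Set X // S.Countable} ≤ 𝔠 := by
  have : #{S : Set X // S.Countable} ≤ #(ℕ → Option X) := by
    refine mk_le_of_surjective (f := fun f : ℕ → Option X =>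
      (⟨{x | ∃ n, f n = some x}, ?_⟩ : {S : Set X // S.Countable})) ?_
    · refine ((countable_range f).preimage_of_injOn (Option.some_injective X).injOn).mono ?_
      rintro x ⟨n, hn⟩
      exact ⟨n, hn⟩
    · rintro ⟨S, hS⟩
      rcases S.eq_empty_or_nonempty with rfl | h
      · exact ⟨fun _ => none, by simp⟩
      · obtain ⟨f, rfl⟩ := hS.exists_eq_range h
        exact ⟨fun n => some (f n), by simp [range]⟩
  refine this.trans ?_
  rw [mk_arrow, mk_option, mk_nat]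
  simp only [lift_id]
  refine (power_le_power_right (add_le_add hX (one_le_aleph0.trans aleph0_le_continuum))).trans ?_
  simp

theorem Cond.ext' {p q : Cond} (h₁ : p.Y = q.Y) (h₂ : p.A = q.A) (h₃ : p.s = q.s) : p = q := by
  cases p; cases q; simp_all

theorem mk_supp_le (ρ : ℕ → K) : #{r : Cond // r.supp ⊆ range ρ} ≤ 𝔠 := by
  have : #{r : Cond // r.supp ⊆ range ρ} ≤ #({S : Set (Set ℕ) // S.Countable} ×
      {S : Set (ℕ → ℕ) // S.Countable} × (ℕ × ℕ → Option Bool)) := by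
    refine mk_le_of_injective (f := fun r => (⟨r.1.Y, r.1.hY⟩, ⟨r.1.A, r.1.hA⟩,
      fun x => r.1.s (ρ x.1, x.2))) ?_
    rintro ⟨p, hp⟩ ⟨q, hq⟩ e
    simp only [Prod.mk.injEq, Subtype.mk.injEq] at e
    refine Subtype.ext (Cond.ext' e.1 e.2.1 (funext ?_))
    rintro ⟨α, n⟩
    by_cases h : α ∈ range ρ
    · obtain ⟨i, rfl⟩ := h
      exact congrFun e.2.2 (i, n)
    · have h₁ : p.s (α, n) = none := by
        by_contra h'
        exact h (hp ⟨n, h'⟩)
      have h₂ : q.s (α, n) = none := by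
        by_contra h'
        exact h (hq ⟨n, h'⟩)
      simp only [h₁, h₂]
  refine this.trans ?_
  have h₁ := mk_ctble_le (X := Set ℕ) (by simp)
  have h₂ := mk_ctble_le (X := ℕ → ℕ) (by simp)
  have h₃ : #(ℕ × ℕ → Option Bool) ≤ 𝔠 := by
    rw [mk_arrow]
    simp only [lift_id]
    refine (power_le_power_right (mk_le_aleph0.trans aleph0_le_continuum)).trans ?_
    simp
  simp only [mk_prod, lift_id]
  refine (mul_le_mul' h₁ (mul_le_mul' h₂ h₃)).trans ?_
  simp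

open Classical in
noncomputable def Cond.restrict (r : Cond) (A : Set K) : Cond where
  Y := r.Y
  A := r.A
  s := fun z => if z.1 ∈ A then r.s z else none
  hY := r.hY
  hA := r.hA
  hfin := r.hfin
  hgood := r.hgood
  hs := r.hs.mono (by
    rintro α ⟨n, hn⟩
    refine ⟨n, fun e => hn ?_⟩
    simp [e])
  hfree := fun α => (r.hfree α).mono (by
    intro n h
    simp only [mem_ofPred_eq] at h ⊢
    simp [h])

open Classical in
noncomputable def Cond.merge (u t : Cond) (A : Set K) : Cond where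
  Y := u.Y
  A := u.A
  s := fun z => if z.1 ∈ A then u.s z else t.s z
  hY := u.hY
  hA := u.hA
  hfin := u.hfin
  hgood := u.hgood
  hs := (u.hs.union t.hs).mono (by
    rintro α ⟨n, hn⟩
    by_cases h : α ∈ A
    · exact Or.inl ⟨n, by simpa [h] using hn⟩
    · exact Or.inr ⟨n, by simpa [h] using hn⟩)
  hfree := fun α => by
    by_cases h : α ∈ A
    · simpa [h] using u.hfree α
    · simpa [h] using t.hfree α

/-- Decisions about ground model sets do not depend on suitable rows. -/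
theorem indep (Φ : Cond → Set ℕ → Prop) (mono : ∀ t t' B, t' ≤ t → Φ t B → Φ t' B)
    (h : ∀ r B, ∃ u ≤ r, Φ u B ∨ Φ u Bᶜ) :
    ∃ α : ℕ → K, Function.Injective α ∧ ∀ t B, ∃ t' ≤ t, (Φ t' B ∨ Φ t' Bᶜ) ∧
      ∀ i n, t'.s (α i, n) = t.s (α i, n) := by
  classical
  choose u hu hΦ using h
  have h₁ : ∀ ρ : ℕ → K, ∃ ψ : Set ℕ → K, ∀ r B, r.supp ⊆ range ρ → (u r B).supp ⊆ range ψ := by
    intro ρ
    have hc : #(insert (∅ : K) (⋃ x : {r : Cond // r.supp ⊆ range ρ} × Set ℕ,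
        (u x.1.1 x.2).supp) : Set K) ≤ #(Set ℕ) := by
      refine mk_insert_le.trans ?_
      have : #(⋃ x : {r : Cond // r.supp ⊆ range ρ} × Set ℕ, (u x.1.1 x.2).supp) ≤ 𝔠 := by
        refine mk_iUnion_le_sum_mk.trans ((sum_le_sum _ (fun _ => 𝔠) fun x => ?_).trans ?_)
        · exact (le_aleph0_iff_set_countable.2 (u x.1.1 x.2).hs).trans aleph0_le_continuum
        · rw [sum_const', mk_prod]
          simp only [lift_id]
          refine (mul_le_mul_left (mul_le_mul_left (mk_supp_le ρ) _) _).trans ?_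
          simp
      refine (add_le_add this (one_le_aleph0.trans aleph0_le_continuum)).trans ?_
      simp
    obtain ⟨e⟩ := hc
    have : Nonempty (insert (∅ : K) (⋃ x : {r : Cond // r.supp ⊆ range ρ} × Set ℕ,
        (u x.1.1 x.2).supp) : Set K) := ⟨⟨∅, mem_insert _ _⟩⟩
    refine ⟨fun B => (Function.invFun e B).1, fun r B hr α hα => ?_⟩
    refine ⟨e ⟨α, Or.inr (mem_iUnion.2 ⟨(⟨r, hr⟩, B), hα⟩)⟩, ?_⟩
    simp only [Function.leftInverse_invFun e.injective _]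
  choose ψ hψ using h₁
  obtain ⟨A, hA, ⟨a₀, ha₀⟩, hcl⟩ := closing (L := Set ℕ) (by simp) ψ
  have hinf : Aᶜ.Infinite := by
    intro hfin
    have h₂ : #(univ : Set K) ≤ 𝔠 := by
      rw [← union_compl_self A]
      refine (mk_union_le _ _).trans ((add_le_add hA
        ((le_aleph0_iff_set_countable.2 hfin.countable).trans aleph0_le_continuum)).trans ?_)
      simp
    rw [mk_univ, mk_set] at h₂
    exact (cantor #(Set ℕ)).not_ge (by simpa using h₂)
  refine ⟨fun i => (hinf.natEmbedding _ i).1,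
    Subtype.val_injective.comp (hinf.natEmbedding _).injective, fun t B => ?_⟩
  have hsupp : (u (t.restrict A) B).supp ⊆ A := by
    obtain ⟨ρ, hρ⟩ := ((t.restrict A).hs.insert a₀).exists_eq_range (insert_nonempty _ _)
    have h₃ : ∀ i, ρ i ∈ A := by
      intro i
      have : ρ i ∈ insert a₀ {α | ∃ n, (t.restrict A).s (α, n) ≠ none} := hρ ▸ mem_range_self i
      rcases this with e | ⟨n, hn⟩
      · exact e ▸ ha₀
      · by_contra h'
        simp [Cond.restrict, h'] at hn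
    intro α hα
    obtain ⟨l, rfl⟩ := hψ ρ (t.restrict A) B (hρ ▸ subset_insert _ _) hα
    exact hcl ρ h₃ l
  have h₄ := hu (t.restrict A) B
  have h₅ : (u (t.restrict A) B).merge t A ≤ u (t.restrict A) B :=
    ⟨subset_rfl, subset_rfl, fun _ h h' => absurd h h', fun z b e => by
      have : z.1 ∈ A := hsupp ⟨z.2, by simp [e]⟩
      simp [Cond.merge, this, e]⟩
  refine ⟨(u (t.restrict A) B).merge t A, ⟨h₄.Y, h₄.A, h₄.good, fun z b e => ?_⟩,
    (hΦ _ _).imp (mono _ _ _ h₅) (mono _ _ _ h₅), fun i n => ?_⟩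
  · by_cases hz : z.1 ∈ A
    · simp only [Cond.merge, if_pos hz]
      exact h₄.s z b (by simp [Cond.restrict, hz, e])
    · simp [Cond.merge, hz, e]
  · have : (hinf.natEmbedding _ i).1 ∉ A := (hinf.natEmbedding _ i).2
    simp [Cond.merge, this]

end Pool.Agent.MP_e258b5_gt
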