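import Pool.Agent.MP_e258b5_gt.NotGamma

namespace Pool.Agent.MP_e258b5_gt

open Pool.Agent.MP_c6cf52_lc Name Gen Set Cond Filter

/-- `r` forces that `p` is an ultrafilter and `U` an omega-cover. -/
def Forced (p U : Name Cond) (r : Cond) : Prop :=
  ∀ g : Gen Cond, r ∈ g.G → p ∈ g.N → U ∈ g.N → XN ∈ g.N →
    IsUltra g.E (g.v wN) (g.v p) ∧ IsOmegaCov g.E (g.v wN) (g.v XN) (g.v U)

noncomputable def DN (α : ℕ → K) (k M i : ℕ) : Name Cond :=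
  locN fun c m => (∀ n < m, c.s (α k, n) ≠ none) ∧ cnt (bits α c k) m % M = i

def P1 (U : Name Cond) (t : Cond) (τ : Name Cond) (m m' : ℕ) : Prop :=
  ∀ g : Gen Cond, t ∈ g.G → τ ∈ g.N → U ∈ g.N → XN ∈ g.N → g.E (g.v τ) (g.v U) ∧
    ∀ x, g.E x (g.v XN) → (∀ n, m ≤ n → n < m' → ¬ g.E (g.v (nN n)) x) → g.E x (g.v τ)

def P2 (t : Cond) (τ w : Name Cond) : Prop :=
  ∀ g : Gen Cond, t ∈ g.G → τ ∈ g.N → w ∈ g.N → g.v τ ≠ g.v w

def P3 (t : Cond) (τ w : Name Cond) : Prop :=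
  ∀ g : Gen Cond, t ∈ g.G → τ ∈ g.N → w ∈ g.N → g.E (g.v w) (g.v τ)

theorem P1.mono {U τ : Name Cond} {t t' : Cond} {m m' m'' : ℕ} (h : P1 U t τ m m') (ht : t' ≤ t)
    (hm : m' ≤ m'') : P1 U t' τ m m'' := fun g hg a b c =>
  ⟨(h g (g.up hg ht) a b c).1, fun x hx H =>
    (h g (g.up hg ht) a b c).2 x hx fun n h₁ h₂ => H n h₁ (h₂.trans_le hm)⟩

theorem P2.mono {τ w : Name Cond} {t t' : Cond} (h : P2 t τ w) (ht : t' ≤ t) : P2 t' τ w :=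
  fun g hg => h g (g.up hg ht)

theorem P3.mono {τ w : Name Cond} {t t' : Cond} (h : P3 t τ w) (ht : t' ≤ t) : P3 t' τ w :=
  fun g hg => h g (g.up hg ht)

theorem dec_dense (S : Finset (K × ℕ)) (q : Cond) :
    ∀ t ≤ q, ∃ t' ≤ t, t' ∈ {c : Cond | ∀ z ∈ S, c.s z ≠ none} := fun t _ => exists_dec t S

variable {p U : Name Cond} {α : ℕ → K}

theorem step_one {t : Cond} (ht : Forced p U t) (m : ℕ) {W : Set (Name Cond)} (hW : W.Finite)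
    (LY : Finset (Set ℕ)) (hLY : ↑LY ⊆ t.Y) (α : ℕ → K) (k M : ℕ) (hM : 0 < M) :
    ∃ t' ≤ t, ∃ x : Name Cond × ℕ × ℕ, m < x.2.1 ∧ P1 U t' x.1 m x.2.1 ∧ (∀ w ∈ W, P2 t' x.1 w) ∧
      (∀ y ∈ LY, P3 t' x.1 (sN y)) ∧ P3 t' p (DN α k M x.2.2) := by
  classical
  obtain ⟨g, hg, hC⟩ := exists_gen t (Base ∪ ({p, U} ∪ (W ∪ (sN '' LY ∪ (range (DN α k M) ∪
      range fun m => denseN {c : Cond | ∀ z ∈ (Finset.range m).image (fun n => (α k, n)),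
        c.s z ≠ none})))))
    (base_ctble.union ((to_countable _).union (hW.countable.union
      ((LY.finite_toSet.image _).countable.union ((countable_range _).union (countable_range _))))))
  simp only [union_subset_iff, insert_subset_iff, singleton_subset_iff, image_subset_iff,
    range_subset_iff] at hC
  obtain ⟨hB, ⟨hp, hU⟩, hWN, hYN, hDN, hdN⟩ := hC
  obtain ⟨hult, ⟨hopen, -⟩, hXU, hom⟩ := ht g hg hp hU (XN_mem hB)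
  have hx : ∀ w : Name Cond, ∃ x, g.E x (g.v XN) ∧ (g.E (g.v w) (g.v U) → ¬ g.E x (g.v w)) := by
    intro w
    by_cases h : g.E (g.v w) (g.v U)
    · by_contra h'
      push Not at h'
      refine hXU ((Gen.ext fun x => ⟨(hopen _ h).1 x, fun hx => (h' x hx).2⟩ :
        g.v w = g.v XN) ▸ h)
    · exact ⟨_, fin_X hB finite_empty, fun h' => absurd h' h⟩
  choose xw hx₁ hx₂ using hx
  have hfin : {s : Set ℕ | s ⊆ Iio m}.Finite := (finite_Iio m).finite_subsets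
  obtain ⟨c, hc⟩ := exists_set (g := g) (S := xw '' W ∪ ((fun y => g.v (sN y)) '' LY ∪
    (fun y => g.v (sN y)) '' {s : Set ℕ | s ⊆ Iio m}))
    ((hW.image _).union ((LY.finite_toSet.image _).union (hfin.image _)))
  obtain ⟨u, hu, hcu⟩ := hom c (by
      intro x hx
      rcases (hc x).1 hx with ⟨w, -, rfl⟩ | ⟨y, hy, rfl⟩ | ⟨y, hy, rfl⟩
      · exact hx₁ w
      · exact (E_XN (XN_mem hB)).2 ⟨y, ⟨t, hg, hLY hy⟩, hYN hy, rfl⟩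
      · exact fin_X hB ((finite_Iio m).subset hy))
    (isFin_iff.2 (((hW.image _).union ((LY.finite_toSet.image _).union (hfin.image _))).subset
      fun x hx => (hc x).1 hx))
  obtain ⟨τ, hτ, rfl⟩ := exists_v u
  have hn : ∀ s ∈ {s : Set ℕ | s ⊆ Iio m}, ∃ n, ∀ y, g.E y (g.v XN) →
      (∀ j < n, j ∈ s ↔ g.E (g.v (nN j)) y) → g.E y (g.v τ) := by
    intro s hs
    obtain ⟨n, hn, H⟩ := (hopen _ hu).2 _ (hcu _ ((hc _).2 (Or.inr (Or.inr ⟨s, hs, rfl⟩))))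
    obtain ⟨n, rfl⟩ := E_wN.1 hn
    refine ⟨n, fun y hy H' => H y hy fun j hj => ?_⟩
    obtain ⟨j, hj', rfl⟩ := E_nN.1 hj
    rw [nN_sN (fin_mem hB ((finite_Iio m).subset hs))]
    exact H' j hj'
  choose! ns hns using hn
  obtain ⟨B, hBd⟩ := (hfin.image ns).bddAbove
  obtain ⟨i, -, hi⟩ := big_part hult (M := M) (D := fun i => g.v (DN α k M i))
    (fun i _ => locN_sub (hDN i)) (fun n => by
      obtain ⟨d, h₁, h₂⟩ := meets_below (hdN n) hg (dec_dense _ t)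
      exact ⟨_, Nat.mod_lt _ hM, (nN_locN (hDN _)).2 ⟨d, h₂, fun j hj => h₁ _
        (Finset.mem_image.2 ⟨j, Finset.mem_range.2 hj, rfl⟩), rfl⟩⟩)
  have l5 : ∀ {g : Gen Cond}, τ ∈ g.N → U ∈ g.N → XN ∈ g.N →
      ∀ x ∈ [τ, U, XN, nN m, nN (max B (m + 1))], x ∈ g.N := fun a b c =>
    lcons a (l4 b c (nN_mem _) (nN_mem _))
  obtain ⟨t₁, ht₁, H₁⟩ := transfer (Ψ := fun _ E w => E (w 0) (w 1) ∧ ∀ x, E x (w 2) →
      (∀ n, E n (w 4) → ¬ E n (w 3) → ¬ E n x) → E x (w 0)) (by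
      repeat' first
        | exact UDef.mem _ _ | apply UDef.and | apply UDef.not | apply UDef.imp | apply UDef.all)
    (l5 hτ hU (XN_mem hB)) ⟨hu, fun x hx H => by
      refine hns {j | j < m ∧ g.E (g.v (nN j)) x} (fun j hj => hj.1) x hx fun j hj =>
        ⟨fun h => h.2, fun h => ⟨?_, h⟩⟩
      by_contra h'
      have h₁ : ns {j | j < m ∧ g.E (g.v (nN j)) x} ≤ B := hBd ⟨_, fun j hj => hj.1, rfl⟩
      exact H _ (nN_lt.2 (by omega)) (fun e => h' (nN_lt.1 e)) h⟩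
  obtain ⟨t₂, ht₂, H₂⟩ := transfer (UDef.mem 0 1) (l2 (hDN i) hp) hi
  obtain ⟨t₃, ht₃, a₁, a₂⟩ := g.dir ht₁ ht₂
  obtain ⟨t₄, ht₄, a₃, a₄⟩ := g.dir ht₃ hg
  obtain ⟨t₅, ht₅, a₅, H₃⟩ := dir_fin hW (Φ := fun w t => P2 t τ w) (fun _ _ _ h h' => h'.mono h)
    (fun w hw => by
      obtain ⟨s, hs, H⟩ := transfer (UDef.ne 0 1) (l2 hτ (hWN hw)) (fun e : g.v τ = g.v w =>
        hx₂ w (e ▸ hu) (e ▸ hcu _ ((hc _).2 (Or.inl ⟨w, hw, rfl⟩))))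
      exact ⟨s, hs, fun g' b₁ b₂ b₃ => H g' b₁ (l2 b₂ b₃)⟩) ht₄
  obtain ⟨t₆, -, a₆, H₄⟩ := dir_fin LY.finite_toSet (Φ := fun y t => P3 t τ (sN y))
    (fun _ _ _ h h' => h'.mono h) (fun y hy => by
      obtain ⟨s, hs, H⟩ := transfer (UDef.mem 0 1) (l2 (hYN hy) hτ)
        (hcu _ ((hc _).2 (Or.inr (Or.inl ⟨y, hy, rfl⟩))))
      exact ⟨s, hs, fun g' b₁ b₂ b₃ => H g' b₁ (l2 b₃ b₂)⟩) ht₅
  refine ⟨t₆, a₆.trans (a₅.trans a₄), (τ, max B (m + 1), i), by simp, fun g' b₁ b₂ b₃ b₄ => ?_,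
    fun w hw => (H₃ w hw).mono a₆, H₄, fun g' b₁ b₂ b₃ =>
      H₂ g' (g'.up b₁ (a₆.trans (a₅.trans (a₃.trans a₂)))) (l2 b₃ b₂)⟩
  obtain ⟨c₁, c₂⟩ := H₁ g' (g'.up b₁ (a₆.trans (a₅.trans (a₃.trans a₁)))) (l5 b₂ b₃ b₄)
  refine ⟨c₁, fun x hx H => c₂ x hx fun n d₁ d₂ => ?_⟩
  obtain ⟨j, hj, rfl⟩ := E_nN.1 d₁
  exact H j (not_lt.1 fun e => d₂ (nN_lt.2 e)) hj

/-- The outcome of the fusion construction. -/
structure Data (p U : Name Cond) (α : ℕ → K) where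
  q : Cond
  r : ℕ → Cond
  F : ℕ → Finset (K × ℕ)
  a : ℕ → ℕ
  τ : ℕ → Finset (K × ℕ) → Name Cond
  i : ℕ → Finset (K × ℕ) → ℕ
  LY : ℕ → Finset (Set ℕ)
  forced : Forced p U q
  ha : StrictMono a
  hq : ∀ k, q ≤ r k
  free : ∀ k, (r k).Free (F k)
  hc : colr a ∈ q.A
  hLY : ∀ y ∈ q.Y, ∀ᶠ k in atTop, y ∈ LY k
  h1 : ∀ k, ∀ σ ∈ (F k).powerset, P1 U ((r k).fill (F k) σ) (τ k σ) (a k) (a (k + 1))
  h2 : ∀ j k, j < k → ∀ σ ∈ (F j).powerset, ∀ σ' ∈ (F k).powerset,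
    P2 ((r k).fill (F k) σ') (τ k σ') (τ j σ)
  h3 : ∀ k, ∀ σ ∈ (F k).powerset, ∀ y ∈ LY k, P3 ((r k).fill (F k) σ) (τ k σ) (sN y)
  h4 : ∀ k, ∀ σ ∈ (F k).powerset,
    P3 ((r k).fill (F k) σ) p (DN α k (4 ^ (F k).card + 1) (i k σ))

theorem exists_data {r₀ : Cond} (h : Forced p U r₀) (α : ℕ → K) :
    ∃ d : Data p U α, d.q ≤ r₀ := by
  classical
  have hF : ∀ t ≤ r₀, Forced p U t := fun t ht g hg => h g (g.up hg ht)
  obtain ⟨st, r, F, LY, LA, q, -, hq, hq', hR, hfree, hY, -⟩ :=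
    fusion (St := ℕ × Set (Name Cond)) (fun st t => t ≤ r₀ ∧ st.2.Finite)
    (fun k st F LY _ st' t => st.1 < st'.1 ∧ st.2 ⊆ st'.2 ∧
      ∃ x : Finset (K × ℕ) → Name Cond × ℕ × ℕ, ∀ σ ∈ F.powerset, (x σ).1 ∈ st'.2 ∧
        P1 U (t.fill F σ) (x σ).1 st.1 st'.1 ∧ (∀ w ∈ st.2, P2 (t.fill F σ) (x σ).1 w) ∧
        (∀ y ∈ LY, P3 (t.fill F σ) (x σ).1 (sN y)) ∧
        P3 (t.fill F σ) p (DN α k (4 ^ F.card + 1) (x σ).2.2)) (by
      rintro k ⟨m, W⟩ t F LY _ ⟨ht, hW⟩ hfree hLY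
      obtain ⟨t', h₁, h₂⟩ := amalg F F.powerset (fun _ t' => ∃ x : Name Cond × ℕ × ℕ,
          m < x.2.1 ∧ P1 U t' x.1 m x.2.1 ∧ (∀ w ∈ W, P2 t' x.1 w) ∧
          (∀ y ∈ LY, P3 t' x.1 (sN y)) ∧ P3 t' p (DN α k (4 ^ F.card + 1) x.2.2))
        (fun _ _ _ h ⟨x, a, b, c, d, e⟩ => ⟨x, a, b.mono h le_rfl, fun w hw => (c w hw).mono h,
          fun y hy => (d y hy).mono h, e.mono h⟩) t hfree fun σ _ u hu =>
          step_one (hF u (hu.trans ((fill_le _ _ _).trans ht))) m hW LY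
            (hLY.trans (hu.trans (fill_le _ _ _)).Y) α k _ (Nat.succ_pos _)
      choose! x a b c d e using h₂
      refine ⟨(F.powerset.sup fun σ => (x σ).2.1, W ∪ (fun σ => (x σ).1) '' F.powerset), t', h₁,
        ⟨h₁.1.trans ht, hW.union ((Finset.finite_toSet _).image _)⟩,
        (a ∅ (Finset.empty_mem_powerset _)).trans_le
          (Finset.le_sup (f := fun σ => (x σ).2.1) (Finset.empty_mem_powerset _)),
        subset_union_left, x, fun σ hσ => ⟨Or.inr ⟨σ, hσ, rfl⟩,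
          (b σ hσ).mono le_rfl (Finset.le_sup (f := fun σ => (x σ).2.1) hσ), c σ hσ, d σ hσ,
          e σ hσ⟩⟩) (0, ∅) r₀ ⟨le_rfl, finite_empty⟩
  choose h₁ h₂ x h₃ using hR
  have hW : Monotone fun k => (st k).2 := monotone_nat_of_le_succ h₂
  refine ⟨⟨q.addA (colr fun k => (st k).1), fun k => r (k + 1), F, fun k => (st k).1,
    fun k σ => (x k σ).1, fun k σ => (x k σ).2.2, LY, hF _ ((addA_le _ _).trans hq),
    strictMono_nat_of_lt_succ h₁, fun k => (addA_le _ _).trans (hq' _), hfree, mem_insert _ _,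
    hY, fun k σ hσ => (h₃ k σ hσ).2.1, fun j k hjk σ hσ σ' hσ' =>
      (h₃ k σ' hσ').2.2.1 _ (hW (Nat.succ_le_of_lt hjk) (h₃ j σ hσ).1),
    fun k σ hσ => (h₃ k σ hσ).2.2.2.1, fun k σ hσ => (h₃ k σ hσ).2.2.2.2⟩,
    (addA_le _ _).trans hq⟩

end Pool.Agent.MP_e258b5_gt
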