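import Pool.Agent.MP_c6cf52_lc.Defs

namespace Pool.Agent.MP_e258b5_gt

open Pool.Agent.MP_c6cf52_lc

universe u

variable {M : Type u} (E : M → M → Prop)

/-- `a ⊆ b`. -/
def Sub (a b : M) : Prop := ∀ x, E x a → E x b

/-- `a` contains the empty set and is closed under successor. -/
def IsInd (a : M) : Prop :=
  (∃ e, E e a ∧ ∀ y, ¬ E y e) ∧ ∀ x, E x a → ∃ s, E s a ∧ ∀ y, E y s ↔ E y x ∨ y = x

/-- `w` is the least inductive set. -/
def IsOmega (w : M) : Prop := IsInd E w ∧ ∀ a, IsInd E a → Sub E w a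

/-- `a` injects into a natural number. -/
def IsFin (w a : M) : Prop := ∃ n f, E n w ∧ IsInj E f a n

/-- `u` is open in the subspace `X` of the Cantor space `P(w)`. -/
def IsOpn (w X u : M) : Prop :=
  Sub E u X ∧ ∀ x, E x u → ∃ n, E n w ∧
    ∀ y, E y X → (∀ k, E k n → (E k x ↔ E k y)) → E y u

/-- `U` is an open cover of `X`. -/
def IsCov (w X U : M) : Prop :=
  (∀ u, E u U → IsOpn E w X u) ∧ ∀ x, E x X → ∃ u, E u U ∧ E x u

/-- `U` is an open omega-cover of `X`. -/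
def IsOmegaCov (w X U : M) : Prop :=
  IsCov E w X U ∧ ¬ E X U ∧ ∀ c, Sub E c X → IsFin E w c → ∃ u, E u U ∧ Sub E c u

/-- `U` is an open gamma-cover of `X`. -/
def IsGammaCov (w X U : M) : Prop :=
  IsCov E w X U ∧ ¬ IsFin E w U ∧
    ∀ x, E x X → ∃ c, (∀ u, E u c ↔ E u U ∧ ¬ E x u) ∧ IsFin E w c

/-- `p` is a nonprincipal ultrafilter on `w`. -/
def IsUltra (w p : M) : Prop :=
  (∀ a, E a p → Sub E a w ∧ ∃ n, E n a) ∧
  (∀ a b, E a p → Sub E a b → Sub E b w → E b p) ∧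
  (∀ a b c, E a p → E b p → (∀ n, E n c ↔ E n a ∧ E n b) → E c p) ∧
  (∀ a b, Sub E a w → (∀ n, E n b ↔ E n w ∧ ¬ E n a) → E a p ∨ E b p) ∧
  ∀ n, E n w → ∃ a, E a p ∧ ¬ E n a

/-- `U` is an open cover of `X` with a bijective enumeration `e : w → U` such that
`{n | x ∈ e n} ∈ p` for all `x ∈ X`. -/
def IsPCov (w p X U : M) : Prop :=
  IsCov E w X U ∧ ∃ e, IsInj E e w U ∧ (∀ u, E u U → ∃ n, App E e n u) ∧
    ∀ x, E x X → ∃ b, E b p ∧ ∀ n, E n b ↔ ∃ u, App E e n u ∧ E x u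

end Pool.Agent.MP_e258b5_gt
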