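import Pool.Agent.MP_e258b5_gt.Data

namespace Pool.Agent.MP_e258b5_gt

open Pool.Agent.MP_c6cf52_lc Name Gen Set Cond Filter

variable {p U : Name Cond} {α : ℕ → K}

def Dec (α : ℕ → K) (c : Cond) (m : ℕ) : Prop := ∀ k ≤ m, ∀ n < m, c.s (α k, n) ≠ none

/-- The generic rows. -/
def gx (α : ℕ → K) (g : Gen Cond) (k n : ℕ) : Prop := ∃ c ∈ g.G, bits α c k n

theorem bits_iff {g : Gen Cond} {c : Cond} (hc : c ∈ g.G) {k n : ℕ} (h : c.s (α k, n) ≠ none) :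
    bits α c k n ↔ gx α g k n := by
  refine ⟨fun h' => ⟨c, hc, h'⟩, fun ⟨c', hc', h'⟩ => ?_⟩
  obtain ⟨s, -, h₁, h₂⟩ := g.dir hc hc'
  unfold bits at h' ⊢
  rw [← eq_of_le h₁ h, h₂.s _ _ h']

namespace Data

variable (d : Data p U α)

def M (k : ℕ) : ℕ := 4 ^ (d.F k).card + 1

noncomputable def T (k : ℕ) : Finset ℕ := (d.F k).powerset.image (d.i k)

theorem card_T (k : ℕ) : (d.T k).card ^ 2 < d.M k := by
  have h : (d.T k).card ≤ 2 ^ (d.F k).card :=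
    Finset.card_image_le.trans (Finset.card_powerset _).le
  have : (2 ^ (d.F k).card) ^ 2 = 4 ^ (d.F k).card := by
    rw [← pow_mul, mul_comm, pow_mul]; norm_num
  exact Nat.lt_succ_of_le (this ▸ Nat.pow_le_pow_left h 2)

noncomputable def idx (x : ℕ → ℕ → Prop) (m : ℕ) : ℕ := Nat.pair (lam d.T d.M x m) m

/-- The name of the enumeration. -/
noncomputable def eN : Name Cond :=
  relN (ι := {z : ℕ × Finset (K × ℕ) × Cond // Dec α z.2.2 z.1 ∧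
      z.2.1 ∈ (d.F (d.idx (bits α z.2.2) z.1)).powerset ∧
      z.2.2 ≤ (d.r (d.idx (bits α z.2.2) z.1)).fill (d.F (d.idx (bits α z.2.2) z.1)) z.2.1})
    (fun z => nN z.1.1) (fun z => d.τ (d.idx (bits α z.1.2.2) z.1.1) z.1.2.1) (fun z => z.1.2.2)

def C : Set (Name Cond) :=
  Base ∪ ({p, U, d.eN} ∪ ((⋃ k, d.τ k '' (d.F k).powerset) ∪
    (range (fun z : ℕ × ℕ => DN α z.1 (d.M z.1) z.2) ∪
    (range (fun m => denseN {c | Dec α c m}) ∪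
    range fun k => denseN {c : Cond | ∀ z ∈ d.F k, c.s z ≠ none}))))

theorem C_ctble : d.C.Countable :=
  base_ctble.union ((to_countable _).union ((countable_iUnion fun _ =>
    ((Finset.finite_toSet _).image _).countable).union ((countable_range _).union
    ((countable_range _).union (countable_range _)))))

structure OK (g : Gen Cond) : Prop where
  q : d.q ∈ g.G
  base : Base ⊆ g.N
  p : p ∈ g.N
  U : U ∈ g.N
  e : d.eN ∈ g.N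
  τ : ∀ k, ∀ σ ∈ (d.F k).powerset, d.τ k σ ∈ g.N
  D : ∀ k i, DN α k (d.M k) i ∈ g.N
  dec : ∀ m, denseN {c | Dec α c m} ∈ g.N
  dF : ∀ k, denseN {c : Cond | ∀ z ∈ d.F k, c.s z ≠ none} ∈ g.N

variable {d} {g : Gen Cond}

theorem ok_of (hq : d.q ∈ g.G) (hC : d.C ⊆ g.N) : d.OK g := by
  simp only [C, union_subset_iff, insert_subset_iff, singleton_subset_iff, image_subset_iff,
    range_subset_iff, iUnion_subset_iff] at hC
  obtain ⟨a, ⟨b, c, e⟩, f, h, i, j⟩ := hC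
  exact ⟨hq, a, b, c, e, fun k σ hσ => f k hσ, fun k i => h (k, i), i, j⟩

namespace OK

variable (h : d.OK g)
include h

theorem ultra : IsUltra g.E (g.v wN) (g.v p) := (d.forced g h.q h.p h.U (XN_mem h.base)).1

theorem omega : IsOmegaCov g.E (g.v wN) (g.v XN) (g.v U) :=
  (d.forced g h.q h.p h.U (XN_mem h.base)).2

theorem exists_dec (m : ℕ) : ∃ c ∈ g.G, Dec α c m := by
  classical
  obtain ⟨c, h₁, h₂⟩ := meets_below (h.dec m) h.q fun t _ => by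
    obtain ⟨t', a, b⟩ := Cond.exists_dec t
      ((Finset.range (m + 1) ×ˢ Finset.range m).image fun z => (α z.1, z.2))
    exact ⟨t', a, fun k hk n hn => b _ (Finset.mem_image.2 ⟨(k, n), Finset.mem_product.2
      ⟨Finset.mem_range.2 (Nat.lt_succ_of_le hk), Finset.mem_range.2 hn⟩, rfl⟩)⟩
  exact ⟨c, h₂, h₁⟩

theorem exists_sig (k : ℕ) : ∃ σ ∈ (d.F k).powerset, (d.r k).fill (d.F k) σ ∈ g.G := by
  classical
  obtain ⟨c, h₁, h₂⟩ := meets_below (h.dF k) h.q (dec_dense _ _)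
  obtain ⟨s, hs, h₃, h₄⟩ := g.dir h₂ h.q
  exact ⟨_, Finset.mem_powerset.2 (Finset.filter_subset _ _),
    g.up hs (le_fill (h₄.trans (d.hq k)) fun z hz => ne_none_of_le h₃ (h₁ z hz))⟩

noncomputable def sig (k : ℕ) : Finset (K × ℕ) := (h.exists_sig k).choose

theorem sig_mem (k : ℕ) : h.sig k ∈ (d.F k).powerset := (h.exists_sig k).choose_spec.1

theorem sig_G (k : ℕ) : (d.r k).fill (d.F k) (h.sig k) ∈ g.G := (h.exists_sig k).choose_spec.2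

theorem eq_sig {k : ℕ} {σ : Finset (K × ℕ)} (h₁ : σ ∈ (d.F k).powerset)
    (h₂ : (d.r k).fill (d.F k) σ ∈ g.G) : σ = h.sig k := by
  obtain ⟨s, -, h₃, h₄⟩ := g.dir h₂ (h.sig_G k)
  exact fill_unique (d.free k) h₁ (h.sig_mem k) h₃ h₄

noncomputable def u (k : ℕ) : g.M := g.v (d.τ k (h.sig k))

omit h in
theorem idx_eq {c : Cond} (hc : c ∈ g.G) {m : ℕ} (hd : Dec α c m) :
    d.idx (bits α c) m = d.idx (gx α g) m := by
  unfold idx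
  rw [lam_congr fun k hk n hn => bits_iff hc (hd k hk n hn)]

theorem E_e {x : g.M} :
    g.E x (g.v d.eN) ↔ ∃ m, x = pr (g.v (nN m)) (h.u (d.idx (gx α g) m)) := by
  have he := h.e
  unfold eN at he ⊢
  rw [E_relN he]
  constructor
  · rintro ⟨⟨⟨m, σ, c⟩, h₁, h₂, h₃⟩, h₄, -, -, rfl⟩
    refine ⟨m, ?_⟩
    simp only at h₁ h₂ h₃ h₄ ⊢
    rw [idx_eq h₄ h₁] at h₂ h₃ ⊢
    rw [h.eq_sig h₂ (g.up h₄ h₃)]
    rfl
  · rintro ⟨m, rfl⟩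
    obtain ⟨c, hc, hd⟩ := h.exists_dec m
    obtain ⟨s, hs, h₁, h₂⟩ := g.dir hc (h.sig_G (d.idx (gx α g) m))
    have hd' : Dec α s m := fun k hk n hn => ne_none_of_le h₁ (hd k hk n hn)
    have e := idx_eq (d := d) hs hd'
    refine ⟨⟨(m, h.sig (d.idx (gx α g) m), s), hd', ?_, ?_⟩, hs, nN_mem _, ?_, ?_⟩
    · simp only [e]; exact h.sig_mem _
    · simp only [e]; exact h₂
    · simp only [e]; exact h.τ _ _ (h.sig_mem _)
    · simp only [e]; rfl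

theorem app_e {s t : g.M} :
    App g.E (g.v d.eN) s t ↔ ∃ m, s = g.v (nN m) ∧ t = h.u (d.idx (gx α g) m) := by
  rw [app_iff, h.E_e]
  simp only [pr_inj]

theorem u_spec (k : ℕ) : g.E (h.u k) (g.v U) ∧ ∀ x, g.E x (g.v XN) →
    (∀ n, d.a k ≤ n → n < d.a (k + 1) → ¬ g.E (g.v (nN n)) x) → g.E x (h.u k) :=
  d.h1 k _ (h.sig_mem k) g (h.sig_G k) (h.τ _ _ (h.sig_mem k)) h.U (XN_mem h.base)

theorem u_inj : Function.Injective h.u := by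
  have key : ∀ j k, j < k → h.u k ≠ h.u j := fun j k hjk =>
    d.h2 j k hjk _ (h.sig_mem j) _ (h.sig_mem k) g (h.sig_G k) (h.τ _ _ (h.sig_mem k))
      (h.τ _ _ (h.sig_mem j))
  intro j k e
  rcases lt_trichotomy j k with h' | h' | h'
  exacts [absurd e.symm (key _ _ h'), h', absurd e (key _ _ h')]

theorem big_T (k : ℕ) : Big (g.v p) {m | cnt (gx α g k) m % d.M k ∈ d.T k} := by
  refine ⟨_, d.h4 k _ (h.sig_mem k) g (h.sig_G k) h.p (h.D _ _), fun m hm => ?_⟩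
  obtain ⟨c, hc, h₁, h₂⟩ := (nN_locN (h.D _ _)).1 hm
  show cnt (gx α g k) m % d.M k ∈ d.T k
  rw [← cnt_congr fun n hn => bits_iff hc (h₁ n hn), h₂]
  exact Finset.mem_image_of_mem _ (h.sig_mem k)

end OK

end Data

/-- `t` forces that `B` belongs to `p` if `p` is an ultrafilter. -/
def InU (p : Name Cond) (t : Cond) (B : Set ℕ) : Prop :=
  ∀ g : Gen Cond, t ∈ g.G → p ∈ g.N → sN B ∈ g.N → IsUltra g.E (g.v wN) (g.v p) →
    g.E (g.v (sN B)) (g.v p)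

theorem InU.mono (t t' : Cond) (B : Set ℕ) (ht : t' ≤ t) (h : InU p t B) : InU p t' B :=
  fun g hg => h g (g.up hg ht)

theorem inU_dense (p : Name Cond) (r : Cond) (B : Set ℕ) : ∃ u ≤ r, InU p u B ∨ InU p u Bᶜ := by
  obtain ⟨g, hg, hC⟩ := exists_gen r {p, sN B, sN Bᶜ} (to_countable _)
  simp only [insert_subset_iff, singleton_subset_iff] at hC
  obtain ⟨hp, h₁, h₂⟩ := hC
  have key : ∀ S : Set ℕ, sN S ∈ g.N → (IsUltra g.E (g.v wN) (g.v p) → g.E (g.v (sN S)) (g.v p)) →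
      ∃ u ≤ r, InU p u S := by
    intro S hS H
    obtain ⟨t, ht, H'⟩ := transfer (Ψ := fun _ E w => IsUltra E (w 0) (w 1) → E (w 2) (w 1))
      ((UD.isUltra _ _).imp (UDef.mem _ _)) (l3 wN_mem hp hS) H
    obtain ⟨s, -, a₁, a₂⟩ := g.dir ht hg
    exact ⟨s, a₂, fun g' b₁ b₂ b₃ => H' g' (g'.up b₁ a₁) (l3 wN_mem b₂ b₃)⟩
  by_cases h : IsUltra g.E (g.v wN) (g.v p) → g.E (g.v (sN B)) (g.v p)
  · exact (key B h₁ h).imp fun u hu => ⟨hu.1, Or.inl hu.2⟩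
  · refine (key Bᶜ h₂ fun hu => ?_).imp fun u hu => ⟨hu.1, Or.inr hu.2⟩
    refine ((big_or hu (sN_sub h₁)).resolve_left fun e => h fun _ => e).mem hu (sN_sub h₂) ?_
    exact fun n hn => (nN_sN h₂).2 fun e => hn ((nN_sN h₁).2 e)

theorem inner (d : Data p U α) (inj : Function.Injective α)
    (hα : ∀ t B, ∃ t' ≤ t, (InU p t' B ∨ InU p t' Bᶜ) ∧ ∀ i n, t'.s (α i, n) = t.s (α i, n))
    {y : Set ℕ} {t : Cond} (ht : t ≤ d.q) (hy : y ∈ t.Y) :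
    ∃ t' ≤ t, ∃ C : Set (Name Cond), C.Countable ∧ ∀ g : Gen Cond, t' ∈ g.G → C ⊆ g.N →
      sN y ∈ g.N → ∃ b, g.E b (g.v p) ∧
        ∀ n, g.E n b ↔ ∃ u, App g.E (g.v d.eN) n u ∧ g.E (g.v (sN y)) u := by
  have h₀ : ∃ (i₀ : ℕ) (f : ℕ → ℕ), ∀ i ≥ i₀, ∀ m ≥ f i, y ∈ d.LY (Nat.pair i m) ∨
      ∀ n ∈ y, d.a (Nat.pair i m) ≤ n → d.a (Nat.pair i m + 1) ≤ n := by
    by_cases h : y ∈ d.q.Y
    · obtain ⟨j, hj⟩ := eventually_atTop.1 (d.hLY y h)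
      exact ⟨0, fun _ => j, fun i _ m hm => Or.inl (hj _ (hm.trans (Nat.right_le_pair i m)))⟩
    · obtain ⟨i₀, f, H⟩ := good_blocks d.ha (ht.good y hy h _ d.hc)
      exact ⟨i₀, f, fun i hi m hm => Or.inr (H i hi m hm)⟩
  obtain ⟨i₀, f, H⟩ := h₀
  obtain ⟨t', h₁, B, b₀, h₂, h₃⟩ := shift inj (InU p) InU.mono t (hα t) d.T d.M d.card_T
    fun l => (Finset.range (l + 1)).sup f
  refine ⟨t', h₁, insert (sN B) d.C, d.C_ctble.insert _, fun g hg hC hyN => ?_⟩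
  obtain ⟨hB, hC⟩ := insert_subset_iff.1 hC
  have h := Data.ok_of (g.up hg (h₁.trans ht)) hC
  have hu := h.ultra
  have hX : g.E (g.v (sN y)) (g.v XN) :=
    (E_XN (XN_mem h.base)).2 ⟨y, ⟨t, g.up hg h₁, hy⟩, hyN, rfl⟩
  obtain ⟨b, hb⟩ := sep_udef (Ψ := fun _ E w => ∃ u, App E (w 1) (w 0) u ∧ E (w 2) u)
    (UDef.ex ((UDef.app _ _ _).and (UDef.mem _ _))) [g.v d.eN, g.v (sN y)] (g.v wN)
  have hb' : ∀ n, g.E n b ↔ g.E n (g.v wN) ∧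
      ∃ u, App g.E (g.v d.eN) n u ∧ g.E (g.v (sN y)) u := hb
  refine ⟨b, ?_, fun n => (hb' n).trans (and_iff_right_of_imp ?_)⟩
  · have hbig : Big (g.v p) B := ⟨_, h₂ g hg h.p hB hu, fun n => (nN_sN hB).1⟩
    refine (((hbig.inter hu (big_ge hu b₀)).inter hu (big_ge hu i₀)).inter hu
      (big_biInter hu (finite_Iio i₀) fun k _ => h.big_T k)).mem hu
      (fun n hn => ((hb' n).1 hn).1) ?_
    rintro m ⟨⟨⟨a₁, a₂⟩, a₃⟩, a₄⟩
    obtain ⟨l, c₁, c₂, c₃⟩ := h₃ m a₁ a₂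
    rw [cnt_congr fun n hn => bits_iff hg (c₂ n hn)] at c₃
    have e₁ : lam d.T d.M (gx α g) m ≤ l := lam_le c₃
    have e₂ : i₀ ≤ lam d.T d.M (gx α g) m := le_lam a₃ a₄
    have e₃ : f (lam d.T d.M (gx α g) m) ≤ m :=
      (Finset.le_sup (f := f) (Finset.mem_range.2 (Nat.lt_succ_of_le e₁))).trans c₁
    refine (hb' _).2 ⟨nN_wN m, _, h.app_e.2 ⟨m, rfl, rfl⟩, ?_⟩
    rcases H _ e₂ m e₃ with H' | H'
    · exact d.h3 _ _ (h.sig_mem _) y H' g (h.sig_G _) (h.τ _ _ (h.sig_mem _)) hyN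
    · exact (h.u_spec _).2 _ hX fun n b₁ b₂ b₃ => (H' n ((nN_sN hyN).1 b₃) b₁).not_gt b₂
  · rintro ⟨u, hu, -⟩
    obtain ⟨m, rfl, -⟩ := h.app_e.1 hu
    exact nN_wN m

theorem pcov (d : Data p U α) (inj : Function.Injective α)
    (hα : ∀ t B, ∃ t' ≤ t, (InU p t' B ∨ InU p t' Bᶜ) ∧ ∀ i n, t'.s (α i, n) = t.s (α i, n))
    {g : Gen Cond} (h : d.OK g) :
    ∃ V, Sub g.E V (g.v U) ∧ IsPCov g.E (g.v wN) (g.v p) (g.v XN) V := by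
  obtain ⟨V, hV⟩ := sep_udef (Ψ := fun _ E w => ∃ n, App E (w 1) n (w 0))
    (UDef.ex (UDef.app _ _ _)) [g.v d.eN] (g.v U)
  have hV' : ∀ u, g.E u V ↔ g.E u (g.v U) ∧ ∃ n, App g.E (g.v d.eN) n u := hV
  have huV : ∀ m, g.E (h.u (d.idx (gx α g) m)) V := fun m =>
    (hV' _).2 ⟨(h.u_spec _).1, _, h.app_e.2 ⟨m, rfl, rfl⟩⟩
  have main : ∀ x, g.E x (g.v XN) → ∃ b, g.E b (g.v p) ∧
      ∀ n, g.E n b ↔ ∃ u, App g.E (g.v d.eN) n u ∧ g.E x u := by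
    intro x hx
    obtain ⟨y, ⟨c, hc, hy⟩, hyN, rfl⟩ := (E_XN (XN_mem h.base)).1 hx
    refine dens (Ψ := fun _ E w => ∃ b, E b (w 0) ∧ ∀ n, E n b ↔ ∃ u, App E (w 1) n u ∧ E (w 2) u)
      (by
        repeat' first
          | exact UDef.mem _ _ | exact UDef.app _ _ _ | apply UDef.and | apply UDef.iff
          | apply UDef.all | apply UDef.ex) (l3 h.p h.e hyN) fun r hr => ?_
    obtain ⟨s, hs, a₁, a₂⟩ := g.dir hr hc
    obtain ⟨t, -, a₃, a₄⟩ := g.dir hs h.q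
    obtain ⟨t', a₅, C, hC, H⟩ := inner d inj hα a₄ ((a₃.trans a₂).Y hy)
    exact ⟨t', a₅.trans (a₃.trans a₁), C, hC, fun g' b₁ b₂ b₃ => H g' b₁ b₂ (b₃ _ (by simp))⟩
  refine ⟨V, fun u hu => ((hV' u).1 hu).1, ⟨fun u hu => h.omega.1.1 u ((hV' u).1 hu).1,
    fun x hx => ?_⟩, g.v d.eN, ⟨⟨fun z hz => ?_, fun n hn => ?_⟩, fun n n' u h₁ h₂ => ?_⟩,
    fun u hu => ((hV' u).1 hu).2, main⟩
  · obtain ⟨b, h₁, h₂⟩ := main x hx
    obtain ⟨n, hn⟩ := (h.ultra.1 b h₁).2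
    obtain ⟨u, h₃, h₄⟩ := (h₂ n).1 hn
    obtain ⟨m, -, rfl⟩ := h.app_e.1 h₃
    exact ⟨_, huV m, h₄⟩
  · obtain ⟨m, rfl⟩ := h.E_e.1 hz
    exact ⟨_, _, nN_wN m, huV m, isPair_pr _ _⟩
  · obtain ⟨m, rfl⟩ := E_wN.1 hn
    refine ⟨_, h.app_e.2 ⟨m, rfl, rfl⟩, fun u hu => ?_⟩
    obtain ⟨m', e, rfl⟩ := h.app_e.1 hu
    rw [nN_inj e]
  · obtain ⟨m, rfl, rfl⟩ := h.app_e.1 h₁
    obtain ⟨m', rfl, e⟩ := h.app_e.1 h₂
    rw [(Nat.pair_eq_pair.1 (h.u_inj e)).2]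

theorem gamma_p {g : Gen Cond} (h : Base ⊆ g.N) (p : g.M) (hp : IsUltra g.E (g.v wN) p) (U : g.M)
    (hU : IsOmegaCov g.E (g.v wN) (g.v XN) U) :
    ∃ V, Sub g.E V U ∧ IsPCov g.E (g.v wN) p (g.v XN) V := by
  obtain ⟨p, hpN, rfl⟩ := exists_v p
  obtain ⟨U, hUN, rfl⟩ := exists_v U
  obtain ⟨r₀, hr₀, H⟩ := transfer
    (Ψ := fun _ E w => IsUltra E (w 0) (w 1) ∧ IsOmegaCov E (w 0) (w 2) (w 3))
    ((UD.isUltra _ _).and (UD.isOmegaCov _ _ _)) (l4 wN_mem hpN (XN_mem h) hUN) ⟨hp, hU⟩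
  obtain ⟨α, inj, hα⟩ := indep (InU p) InU.mono (inU_dense p)
  refine dens (Ψ := fun _ E w => ∃ V, Sub E V (w 3) ∧ IsPCov E (w 0) (w 1) (w 2) V)
    (UDef.ex ((UD.sub _ _).and (UD.isPCov _ _ _ _))) (l4 wN_mem hpN (XN_mem h) hUN)
    fun r hr => ?_
  obtain ⟨s, -, a₁, a₂⟩ := g.dir hr hr₀
  obtain ⟨d, hd⟩ := exists_data (p := p) (U := U) (r₀ := s)
    (fun g' b₁ b₂ b₃ b₄ => H g' (g'.up b₁ a₂) (l4 wN_mem b₂ b₄ b₃)) α
  exact ⟨d.q, hd.trans a₁, d.C, d.C_ctble, fun g' b₁ b₂ _ => pcov d inj hα (Data.ok_of b₁ b₂)⟩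

theorem main : ∃ (M : Type 1) (E : M → M → Prop), IsZFC E ∧ ∃ w X : M,
    IsOmega E w ∧ (∀ x, E x X → Sub E x w) ∧ ¬ IsFin E w X ∧
    (∀ p, IsUltra E w p → ∀ U, IsOmegaCov E w X U → ∃ V, Sub E V U ∧ IsPCov E w p X V) ∧
    ¬ ∀ U, IsOmegaCov E w X U → ∃ V, Sub E V U ∧ IsGammaCov E w X V := by
  obtain ⟨g, -, h⟩ := exists_gen (⊤ : Cond) Base base_ctble
  refine ⟨g.M, g.E, g.isZFC, g.v wN, g.v XN, isOmega, X_sub (XN_mem h), X_inf h, gamma_p h,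
    fun H => ?_⟩
  obtain ⟨V, hV⟩ := H _ (U0_omega h)
  exact not_gamma h V hV

end Pool.Agent.MP_e258b5_gt
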