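import Pool.Agent.MP_e258b5_gt.Comb

namespace Pool.Agent.MP_e258b5_gt

open Set Filter Cond

open Classical in
noncomputable def cnt (x : ℕ → Prop) (m : ℕ) : ℕ := ((Finset.range m).filter x).card

theorem cnt_congr {x x' : ℕ → Prop} {m : ℕ} (h : ∀ n < m, x n ↔ x' n) : cnt x m = cnt x' m := by
  classical
  unfold cnt
  congr 1
  exact Finset.filter_congr fun n hn => h n (Finset.mem_range.1 hn)

theorem cnt_add {x x' : ℕ → Prop} {m : ℕ} {S : Finset ℕ} (h : ∀ n < m, x' n ↔ x n ∨ n ∈ S)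
    (h₁ : ∀ n ∈ S, n < m) (h₂ : ∀ n ∈ S, ¬ x n) : cnt x' m = cnt x m + S.card := by
  classical
  unfold cnt
  rw [← Finset.card_union_of_disjoint]
  · congr 1
    ext n
    simp only [Finset.mem_filter, Finset.mem_range, Finset.mem_union]
    constructor
    · rintro ⟨a, b⟩
      exact ((h n a).1 b).imp (fun c => ⟨a, c⟩) id
    · rintro (⟨a, b⟩ | a)
      exacts [⟨a, (h n a).2 (Or.inl b)⟩, ⟨h₁ n a, (h n (h₁ n a)).2 (Or.inr a)⟩]
  · exact Finset.disjoint_left.2 fun n a b => h₂ n b (Finset.mem_filter.1 a).2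

def bits (α : ℕ → K) (c : Cond) (k n : ℕ) : Prop := c.s (α k, n) = some true

theorem exists_shift (T : Finset ℕ) (M : ℕ) (h : T.card ^ 2 < M) :
    ∃ d, ∀ c, c % M ∈ T → (c + d) % M ∉ T := by
  classical
  by_contra hn
  push Not at hn
  choose c h₁ h₂ using hn
  have : (Finset.range M).card ≤ (T ×ˢ T).card := by
    refine Finset.card_le_card_of_injOn (fun d => (c d % M, (c d + d) % M))
      (fun d _ => Finset.mem_coe.2 (Finset.mem_product.2 ⟨h₁ d, h₂ d⟩)) ?_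
    intro d hd d' hd' e
    simp only [Prod.mk.injEq] at e
    have hd : d < M := by simpa using hd
    have hd' : d' < M := by simpa using hd'
    have e₁ : c d ≡ c d' [MOD M] := e.1
    have e₂ : c d + d ≡ c d' + d' [MOD M] := e.2
    exact Nat.ModEq.eq_of_lt_of_lt (Nat.ModEq.add_left_cancel e₁ e₂) hd hd'
  rw [Finset.card_range, Finset.card_product] at this
  nlinarith

theorem exists_block {b : ℕ → ℕ} (hb : StrictMono b) {m : ℕ} (hm : b 0 ≤ m) :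
    ∃ l, b l ≤ m ∧ m < b (l + 1) := by
  classical
  have h : ∃ l, m < b (l + 1) := ⟨m, lt_of_lt_of_le (Nat.lt_succ_self m) (hb.id_le _)⟩
  refine ⟨Nat.find h, ?_, Nat.find_spec h⟩
  rcases Nat.eq_zero_or_pos (Nat.find h) with e | e
  · rwa [e]
  · have := Nat.find_min h (Nat.sub_lt e Nat.one_pos)
    rw [Nat.sub_add_cancel e] at this
    exact not_lt.1 this

/-- The density argument that destroys pseudo-intersections in the ultrafilter. -/
theorem shift {α : ℕ → K} (inj : Function.Injective α) (Φ : Cond → Set ℕ → Prop)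
    (mono : ∀ t t' B, t' ≤ t → Φ t B → Φ t' B) (t : Cond)
    (dec : ∀ B, ∃ t' ≤ t, (Φ t' B ∨ Φ t' Bᶜ) ∧ ∀ i n, t'.s (α i, n) = t.s (α i, n))
    (T : ℕ → Finset ℕ) (M : ℕ → ℕ) (hM : ∀ k, (T k).card ^ 2 < M k) (f : ℕ → ℕ) :
    ∃ t' ≤ t, ∃ B b₀, Φ t' B ∧ ∀ m ∈ B, b₀ ≤ m → ∃ l, f l ≤ m ∧
      (∀ n < m, t'.s (α l, n) ≠ none) ∧ cnt (bits α t' l) m % M l ∉ T l := by
  classical
  choose d hd using fun l => exists_shift (T l) (M l) (hM l)
  choose S hS hc using fun l => (t.hfree (α l)).exists_subset_card_eq (d l)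
  let e : ℕ → ℕ := fun l => max (f l) ((S l).sup id + 1)
  let b : ℕ → ℕ := fun l => Nat.rec (e 0) (fun l x => max (x + 1) (e (l + 1))) l
  have hb : StrictMono b := strictMono_nat_of_lt_succ fun l =>
    lt_of_lt_of_le (Nat.lt_succ_self _) (le_max_left _ _)
  have he : ∀ l, e l ≤ b l := by
    intro l
    cases l with
    | zero => exact le_rfl
    | succ l => exact le_max_right _ _
  have hf : ∀ l, f l ≤ b l := fun l => (le_max_left _ _).trans (he l)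
  have hSb : ∀ l, ∀ n ∈ S l, n < b l := fun l n hn =>
    lt_of_lt_of_le (Nat.lt_succ_of_le (Finset.le_sup (f := id) hn)) ((le_max_right _ _).trans (he l))
  let D : Set (K × ℕ) := {z | ∃ l, z.1 = α l ∧ z.2 < b (l + 1)}
  have h₁ : (Prod.fst '' D).Countable := (countable_range α).mono (by
    rintro _ ⟨z, ⟨l, h, -⟩, rfl⟩
    exact ⟨l, h.symm⟩)
  have h₂ : ∀ β, {n | (β, n) ∈ D}.Finite := by
    intro β
    by_cases h : ∃ l, β = α l
    · obtain ⟨l, rfl⟩ := h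
      refine (finite_Iio (b (l + 1))).subset ?_
      rintro n ⟨l', h, h'⟩
      exact inj h ▸ h'
    · refine finite_empty.subset ?_
      rintro n ⟨l, h', -⟩
      exact h ⟨l, h'⟩
  obtain ⟨u, hu, hΦ, hrow⟩ := dec
    {m | ∃ l, b l ≤ m ∧ m < b (l + 1) ∧ cnt (bits α t l) m % M l ∉ T l}
  have key : ∀ (v : K × ℕ → Bool) l n, n < b (l + 1) →
      (bits α (u.ovr D v h₁ h₂) l n ↔ bits α t l n ∨ (t.s (α l, n) = none ∧ v (α l, n) = true)) := by
    intro v l n hn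
    unfold bits
    by_cases h : u.s (α l, n) = none
    · rw [ovr_s_free h (show (α l, n) ∈ D from ⟨l, rfl, hn⟩), ← hrow, h]
      simp
    · rw [ovr_s_some h, ← hrow]
      simp [h]
  rcases hΦ with hΦ | hΦ
  · refine ⟨u.ovr D (fun _ => false) h₁ h₂, ovr_le.trans hu, _, 0, mono _ _ _ ovr_le hΦ, ?_⟩
    rintro m ⟨l, a₁, a₂, a₃⟩ -
    refine ⟨l, (hf l).trans a₁, fun n hn => ovr_ne_none ⟨l, rfl, hn.trans a₂⟩, ?_⟩
    rwa [cnt_congr (x' := bits α t l) fun n hn => by simp [key _ l n (hn.trans a₂)]]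
  · refine ⟨u.ovr D (fun z => decide (∃ l, z.1 = α l ∧ z.2 ∈ S l)) h₁ h₂, ovr_le.trans hu, _, b 0,
      mono _ _ _ ovr_le hΦ, fun m hm hm' => ?_⟩
    obtain ⟨l, a₁, a₂⟩ := exists_block hb hm'
    have a₃ : cnt (bits α t l) m % M l ∈ T l := by
      by_contra h
      exact hm ⟨l, a₁, a₂, h⟩
    refine ⟨l, (hf l).trans a₁, fun n hn => ovr_ne_none ⟨l, rfl, hn.trans a₂⟩, ?_⟩
    rw [cnt_add (x := bits α t l) (S := S l) ?_ (fun n hn => (hSb l n hn).trans_le a₁) ?_, hc]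
    · exact hd l _ a₃
    · intro n hn
      rw [key _ l n (hn.trans a₂)]
      refine or_congr_right ⟨?_, fun h => ⟨hS l h, by simpa using ⟨l, rfl, h⟩⟩⟩
      rintro ⟨-, h⟩
      obtain ⟨l', h₃, h₄⟩ := of_decide_eq_true h
      exact inj h₃ ▸ h₄
    · intro n hn h
      have : t.s (α l, n) = none := hS l hn
      unfold bits at h
      rw [this] at h
      simp at h

/-- The level function. -/
noncomputable def lam (T : ℕ → Finset ℕ) (M : ℕ → ℕ) (x : ℕ → ℕ → Prop) (m : ℕ) : ℕ :=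
  sInf {k | cnt (x k) m % M k ∉ T k ∨ k = m}

theorem lam_congr {T : ℕ → Finset ℕ} {M : ℕ → ℕ} {x x' : ℕ → ℕ → Prop} {m : ℕ}
    (h : ∀ k ≤ m, ∀ n < m, x k n ↔ x' k n) : lam T M x m = lam T M x' m := by
  have key : ∀ {x x' : ℕ → ℕ → Prop}, (∀ k ≤ m, ∀ n < m, x k n ↔ x' k n) →
      lam T M x m ≤ lam T M x' m := by
    intro x x' h
    have h₁ : lam T M x' m ≤ m := Nat.sInf_le (Or.inr rfl)
    have h₂ : lam T M x' m ∈ {k | cnt (x' k) m % M k ∉ T k ∨ k = m} :=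
      Nat.sInf_mem ⟨m, Or.inr rfl⟩
    refine Nat.sInf_le (h₂.imp (fun a => ?_) id)
    rwa [cnt_congr (h _ h₁)]
  exact le_antisymm (key h) (key fun k hk n hn => (h k hk n hn).symm)

theorem lam_le {T : ℕ → Finset ℕ} {M : ℕ → ℕ} {x : ℕ → ℕ → Prop} {m l : ℕ}
    (h : cnt (x l) m % M l ∉ T l) : lam T M x m ≤ l := Nat.sInf_le (Or.inl h)

theorem le_lam {T : ℕ → Finset ℕ} {M : ℕ → ℕ} {x : ℕ → ℕ → Prop} {m i : ℕ} (hi : i ≤ m)
    (h : ∀ k < i, cnt (x k) m % M k ∈ T k) : i ≤ lam T M x m := by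
  by_contra h'
  have h₂ : lam T M x m ∈ {k | cnt (x k) m % M k ∉ T k ∨ k = m} := Nat.sInf_mem ⟨m, Or.inr rfl⟩
  rcases h₂ with h₂ | h₂
  · exact h₂ (h _ (not_le.1 h'))
  · omega

open Classical in
/-- The colouring attached to an interval partition. -/
noncomputable def colr (a : ℕ → ℕ) (n : ℕ) : ℕ :=
  if h : ∃ j, a j ≤ n ∧ n < a (j + 1) then h.choose.unpair.1 else 0

theorem good_blocks {a : ℕ → ℕ} (ha : StrictMono a) {y : Set ℕ} (h : Good y (colr a)) :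
    ∃ (i₀ : ℕ) (f : ℕ → ℕ), ∀ i ≥ i₀, ∀ m ≥ f i, ∀ n ∈ y,
      a (Nat.pair i m) ≤ n → a (Nat.pair i m + 1) ≤ n := by
  obtain ⟨i₀, hi⟩ := eventually_atTop.1 h
  have : ∀ i ≥ i₀, ∃ B, ∀ n ∈ y, colr a n = i → n < B := fun i h' => by
    obtain ⟨B, hB⟩ := (hi i h').bddAbove
    exact ⟨B + 1, fun n a b => Nat.lt_succ_of_le (hB ⟨a, b⟩)⟩
  choose! f hf using this
  refine ⟨i₀, f, fun i h₁ m h₂ n hn h₃ => ?_⟩
  by_contra h₄
  have h₅ : ∃ j, a j ≤ n ∧ n < a (j + 1) := ⟨_, h₃, not_le.1 h₄⟩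
  have h₆ : h₅.choose = Nat.pair i m := by
    obtain ⟨b₁, b₂⟩ := h₅.choose_spec
    have c₁ := ha.lt_iff_lt.1 (b₁.trans_lt (not_le.1 h₄))
    have c₂ := ha.lt_iff_lt.1 (h₃.trans_lt b₂)
    omega
  have h₇ : colr a n = i := by
    unfold colr
    rw [dif_pos h₅, h₆, Nat.unpair_pair]
  have h₈ := hf i h₁ n hn h₇
  have h₉ : Nat.pair i m ≤ a (Nat.pair i m) := ha.id_le _
  have := Nat.right_le_pair i m
  omega

end Pool.Agent.MP_e258b5_gt
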