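import Pool.Agent.MP_e258b5_gt.Model
import Pool.Agent.MP_e258b5_gt.Shift

namespace Pool.Agent.MP_e258b5_gt

open Pool.Agent.MP_c6cf52_lc Name Gen Set

/-- The name of the space. -/
noncomputable def XN : Name Cond :=
  Name.mk {x : Set ℕ × Cond // x.1 ∈ x.2.Y} (fun x => sN x.1.1) (fun x => x.1.2)

noncomputable def UN (n : ℕ) : Name Cond :=
  Name.mk {x : Set ℕ × Cond // x.1 ∈ x.2.Y ∧ n ∉ x.1} (fun x => sN x.1.1) (fun x => x.1.2)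

noncomputable def U0 : Name Cond := fam UN

def Base : Set (Name Cond) := {XN, U0} ∪ sN '' {y | y.Finite}

theorem base_ctble : Base.Countable :=
  (to_countable _).union (Set.Countable.ofPred_finite.image _)

variable {g : Gen Cond}

theorem XN_mem (h : Base ⊆ g.N) : XN ∈ g.N := h (Or.inl (Or.inl rfl))

theorem U0_mem (h : Base ⊆ g.N) : U0 ∈ g.N := h (Or.inl (Or.inr rfl))

theorem UN_mem (h : Base ⊆ g.N) (n : ℕ) : UN n ∈ g.N := fam_mem (U0_mem h) n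

theorem fin_mem (h : Base ⊆ g.N) {y : Set ℕ} (hy : y.Finite) : sN y ∈ g.N := h (Or.inr ⟨y, hy, rfl⟩)

theorem E_XN (h : XN ∈ g.N) {x : g.M} :
    g.E x (g.v XN) ↔ ∃ y, (∃ c ∈ g.G, y ∈ c.Y) ∧ sN y ∈ g.N ∧ g.v (sN y) = x := by
  rw [E_v h]
  exact ⟨fun ⟨⟨⟨y, c⟩, h₀⟩, h₁, h₂⟩ => ⟨y, ⟨c, h₁, h₀⟩, h₂⟩,
    fun ⟨y, ⟨c, h₁, h₀⟩, h₂⟩ => ⟨⟨(y, c), h₀⟩, h₁, h₂⟩⟩

theorem E_UN (h : Base ⊆ g.N) {n : ℕ} {x : g.M} :
    g.E x (g.v (UN n)) ↔ g.E x (g.v XN) ∧ ¬ g.E (g.v (nN n)) x := by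
  rw [E_v (UN_mem h n), E_XN (XN_mem h)]
  constructor
  · rintro ⟨⟨⟨y, c⟩, h₀, h₀'⟩, h₁, h₂, rfl⟩
    exact ⟨⟨y, ⟨c, h₁, h₀⟩, h₂, rfl⟩, fun e => h₀' ((nN_sN h₂).1 e)⟩
  · rintro ⟨⟨y, ⟨c, h₁, h₀⟩, h₂, rfl⟩, h₃⟩
    exact ⟨⟨(y, c), h₀, fun e => h₃ ((nN_sN h₂).2 e)⟩, h₁, h₂, rfl⟩

theorem E_U0 (h : Base ⊆ g.N) {x : g.M} : g.E x (g.v U0) ↔ ∃ n, g.v (UN n) = x := by
  unfold U0
  rw [E_fam (U0_mem h)]
  exact exists_congr fun n => and_iff_right (UN_mem h n)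

theorem fin_X (h : Base ⊆ g.N) {y : Set ℕ} (hy : y.Finite) : g.E (g.v (sN y)) (g.v XN) :=
  (E_XN (XN_mem h)).2 ⟨y, ⟨⊤, g.top, hy⟩, fin_mem h hy, rfl⟩

theorem X_sub (h : XN ∈ g.N) (x : g.M) (hx : g.E x (g.v XN)) : Sub g.E x (g.v wN) := by
  obtain ⟨y, -, h₁, rfl⟩ := (E_XN h).1 hx
  exact sN_sub h₁

theorem X_inf (h : Base ⊆ g.N) : ¬ IsFin g.E (g.v wN) (g.v XN) := by
  rw [isFin_iff]
  refine infinite_of_injective_forall_mem (f := fun n : ℕ => g.v (sN {n})) (fun a b e => ?_)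
    fun n => fin_X h (finite_singleton n)
  have : g.E (g.v (nN a)) (g.v (sN {a})) := (nN_sN (fin_mem h (finite_singleton a))).2 rfl
  rw [show g.v (sN {a}) = g.v (sN {b}) from e] at this
  exact (nN_sN (fin_mem h (finite_singleton b))).1 this

theorem UN_inj (h : Base ⊆ g.N) : Function.Injective fun n => g.v (UN n) := by
  intro a b e
  by_contra hab
  have h₁ : g.E (g.v (sN {a})) (g.v (UN b)) := (E_UN h).2 ⟨fin_X h (finite_singleton a),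
    fun h' => hab ((nN_sN (fin_mem h (finite_singleton a))).1 h').symm⟩
  rw [← show g.v (UN a) = g.v (UN b) from e] at h₁
  exact ((E_UN h).1 h₁).2 ((nN_sN (fin_mem h (finite_singleton a))).2 rfl)

theorem U0_omega (h : Base ⊆ g.N) : IsOmegaCov g.E (g.v wN) (g.v XN) (g.v U0) := by
  have key : ∀ S : Set g.M, S.Finite → (∀ x ∈ S, g.E x (g.v XN)) →
      ∃ n, ∀ x ∈ S, g.E x (g.v (UN n)) := by
    intro S hS hX
    have : ∀ x ∈ S, ∃ y, Good y c0 ∧ ∀ n, g.E (g.v (nN n)) x → n ∈ y := fun x hx => by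
      obtain ⟨y, ⟨c, -, h₁⟩, h₂, rfl⟩ := (E_XN (XN_mem h)).1 (hX x hx)
      exact ⟨y, c.hgood y h₁, fun n => (nN_sN h₂).1⟩
    choose! y h₁ h₂ using this
    obtain ⟨n, hn⟩ := (Good.biUnion hS h₁).ne_univ
    exact ⟨n, fun x hx => (E_UN h).2 ⟨hX x hx, fun e => hn (mem_biUnion hx (h₂ x hx n e))⟩⟩
  refine ⟨⟨fun u hu => ?_, fun x hx => ?_⟩, fun hX => ?_, fun c hc hfin => ?_⟩
  · obtain ⟨n, rfl⟩ := (E_U0 h).1 hu
    refine ⟨fun x hx => ((E_UN h).1 hx).1, fun x hx => ⟨_, nN_wN (n + 1), fun y hy H => ?_⟩⟩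
    exact (E_UN h).2 ⟨hy, fun e => ((E_UN h).1 hx).2 ((H _ (nN_lt.2 (Nat.lt_succ_self n))).2 e)⟩
  · obtain ⟨n, hn⟩ := key {x} (finite_singleton x) (by simpa using hx)
    exact ⟨_, (E_U0 h).2 ⟨n, rfl⟩, hn x rfl⟩
  · obtain ⟨n, e⟩ := (E_U0 h).1 hX
    have := fin_X h (finite_singleton n)
    rw [← e] at this
    exact ((E_UN h).1 this).2 ((nN_sN (fin_mem h (finite_singleton n))).2 rfl)
  · obtain ⟨n, hn⟩ := key _ (isFin_iff.1 hfin) hc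
    exact ⟨_, (E_U0 h).2 ⟨n, rfl⟩, hn⟩

theorem not_gamma (h : Base ⊆ g.N) (V : g.M) :
    ¬ (Sub g.E V (g.v U0) ∧ IsGammaCov g.E (g.v wN) (g.v XN) V) := by
  obtain ⟨V, hV, rfl⟩ := exists_v V
  refine dens (Ψ := fun _ E w => ¬ (Sub E (w 0) (w 1) ∧ IsGammaCov E (w 2) (w 3) (w 0)))
    ((UD.sub _ _).and (UD.isGammaCov _ _ _)).not (l4 hV (U0_mem h) wN_mem (XN_mem h)) fun r _ => ?_
  let In : Cond → ℕ → Prop := fun t n =>
    ∀ g' : Gen Cond, t ∈ g'.G → UN n ∈ g'.N → V ∈ g'.N → g'.E (g'.v (UN n)) (g'.v V)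
  have mono : ∀ t t' n, t' ≤ t → In t n → In t' n := fun t t' n ht H g' hg => H g' (g'.up hg ht)
  by_cases hB : BigIn In r univ
  · obtain ⟨q, hq, y, hy, H⟩ := tall mono hB
    refine ⟨q, hq, Base ∪ insert (sN y) (range fun k => denseN {t | ∃ n ∈ y, k ≤ n ∧ In t n}),
      base_ctble.union ((countable_range _).insert _), fun g' hg hC hl => ?_⟩
    have hB' : Base ⊆ g'.N := fun x hx => hC (Or.inl hx)
    have hy' : sN y ∈ g'.N := hC (Or.inr (Or.inl rfl))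
    have hV' : V ∈ g'.N := hl _ (by simp)
    rintro ⟨-, -, -, H'⟩
    obtain ⟨c, h₁, h₂⟩ := H' (g'.v (sN y)) ((E_XN (XN_mem hB')).2 ⟨y, ⟨q, hg, hy⟩, hy', rfl⟩)
    have h₃ := (isFin_iff.1 h₂).preimage (UN_inj hB').injOn
    refine Set.infinite_of_forall_exists_gt (fun k => ?_) h₃
    obtain ⟨d, ⟨n, a₁, a₂, a₃⟩, hd⟩ := meets_below (hC (Or.inr (Or.inr ⟨k + 1, rfl⟩))) hg
      fun t ht => H (k + 1) t ht
    exact ⟨n, (h₁ _).2 ⟨a₃ g' hd (UN_mem hB' n) hV',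
      fun e => ((E_UN hB').1 e).2 ((nN_sN hy').2 a₁)⟩, a₂⟩
  · simp only [BigIn, not_forall, not_exists, not_and] at hB
    obtain ⟨m, u, hu, H⟩ := hB
    refine ⟨u, hu, Base, base_ctble, fun g' hg hB' hl => ?_⟩
    have hV' : V ∈ g'.N := hl _ (by simp)
    rintro ⟨h₁, -, h₂, -⟩
    refine h₂ (isFin_iff.2 (((finite_Iio m).image fun n => g'.v (UN n)).subset fun x hx => ?_))
    obtain ⟨n, rfl⟩ := (E_U0 hB').1 (h₁ x hx)
    refine ⟨n, show n < m from not_le.1 fun hn => ?_, rfl⟩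
    obtain ⟨p, hp, H'⟩ := transfer (UDef.mem 0 1) (l2 (UN_mem hB' n) hV') hx
    obtain ⟨s, -, a₁, a₂⟩ := g'.dir hp hg
    exact H s a₂ n trivial hn fun g'' b₁ b₂ b₃ => H' g'' (g''.up b₁ a₁) (l2 b₂ b₃)

end Pool.Agent.MP_e258b5_gt
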