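import Mathlib

namespace Pool.Agent.MP_e258b5_gt

open Set Filter

/-- Rows of the Silver product. -/
abbrev K : Type := Set (Set ℕ)

/-- `y` meets almost all colour classes of `c` in a finite set. -/
def Good (y : Set ℕ) (c : ℕ → ℕ) : Prop := ∀ᶠ i in atTop, {n | n ∈ y ∧ c n = i}.Finite

theorem Good.of_finite {y : Set ℕ} (h : y.Finite) (c : ℕ → ℕ) : Good y c :=
  Eventually.of_forall fun _ => h.subset fun _ hn => hn.1

theorem Good.union {y z : Set ℕ} {c : ℕ → ℕ} (h₁ : Good y c) (h₂ : Good z c) : Good (y ∪ z) c := by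
  filter_upwards [h₁, h₂] with i a b
  refine (a.union b).subset ?_
  rintro n ⟨hn | hn, e⟩
  exacts [Or.inl ⟨hn, e⟩, Or.inr ⟨hn, e⟩]

theorem Good.mono {y z : Set ℕ} {c : ℕ → ℕ} (h : Good y c) (hz : z ⊆ y) : Good z c := by
  filter_upwards [h] with i a
  exact a.subset fun n hn => ⟨hz hn.1, hn.2⟩

theorem Good.biUnion {ι : Type*} {S : Set ι} (hS : S.Finite) {y : ι → Set ℕ} {c : ℕ → ℕ}
    (h : ∀ i ∈ S, Good (y i) c) : Good (⋃ i ∈ S, y i) c := by
  induction S, hS using Set.Finite.induction_on with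
  | empty => simpa using Good.of_finite finite_empty c
  | insert _ _ ih =>
    rw [biUnion_insert]
    exact (h _ (mem_insert _ _)).union (ih fun i hi => h i (mem_insert_of_mem _ hi))

/-- The basic colouring. -/
def c0 (n : ℕ) : ℕ := n.unpair.1

theorem Good.ne_univ {y : Set ℕ} (h : Good y c0) : ∃ n, n ∉ y := by
  by_contra hn
  push Not at hn
  obtain ⟨i, hi⟩ := h.exists
  refine (infinite_of_injective_forall_mem (f := fun m => Nat.pair i m) ?_ ?_) hi
  · intro a b e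
    simpa using e
  · intro m
    exact ⟨hn _, by simp [c0]⟩

/-- Conditions. -/
structure Cond where
  Y : Set (Set ℕ)
  A : Set (ℕ → ℕ)
  s : K × ℕ → Option Bool
  hY : Y.Countable
  hA : A.Countable
  hfin : ∀ y : Set ℕ, y.Finite → y ∈ Y
  hgood : ∀ y ∈ Y, Good y c0
  hs : {α | ∃ n, s (α, n) ≠ none}.Countable
  hfree : ∀ α, {n | s (α, n) = none}.Infinite

structure CLe (q p : Cond) : Prop where
  Y : p.Y ⊆ q.Y
  A : p.A ⊆ q.A
  good : ∀ y ∈ q.Y, y ∉ p.Y → ∀ c ∈ p.A, Good y c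
  s : ∀ z b, p.s z = some b → q.s z = some b

instance : Preorder Cond where
  le := CLe
  le_refl _ := ⟨subset_rfl, subset_rfl, fun _ h h' => absurd h h', fun _ _ h => h⟩
  le_trans r q p h₁ h₂ := ⟨h₂.Y.trans h₁.Y, h₂.A.trans h₁.A, fun y hy hy' c hc => by
    by_cases h : y ∈ q.Y
    · exact h₂.good y h hy' c hc
    · exact h₁.good y hy h c (h₂.A hc), fun z b h => h₁.s z b (h₂.s z b h)⟩

theorem le_def {q p : Cond} : q ≤ p ↔ CLe q p := Iff.rfl

instance : OrderTop Cond where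
  top := ⟨{y | y.Finite}, ∅, fun _ => none, Set.Countable.ofPred_finite,
    countable_empty, fun _ h => h, fun _ h => Good.of_finite h _, by simp,
    fun _ => by simpa using infinite_univ⟩
  le_top p := ⟨fun y hy => p.hfin y hy, empty_subset _, fun _ _ _ _ h => h.elim,
    fun _ _ h => by simp at h⟩

namespace Cond

def supp (r : Cond) : Set K := {α | ∃ n, r.s (α, n) ≠ none}

theorem none_of_le {q p : Cond} (h : q ≤ p) {z : K × ℕ} (hz : q.s z = none) : p.s z = none := by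
  cases e : p.s z with
  | none => rfl
  | some b => rw [h.s z b e] at hz; exact absurd hz (by simp)

theorem ne_none_of_le {q p : Cond} (h : q ≤ p) {z : K × ℕ} (hz : p.s z ≠ none) : q.s z ≠ none :=
  fun e => hz (none_of_le h e)

theorem eq_of_le {q p : Cond} (h : q ≤ p) {z : K × ℕ} (hz : p.s z ≠ none) : q.s z = p.s z := by
  cases e : p.s z with
  | none => exact absurd e hz
  | some b => exact h.s z b e

theorem supp_mono {q p : Cond} (h : q ≤ p) : p.supp ⊆ q.supp :=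
  fun _ ⟨n, hn⟩ => ⟨n, ne_none_of_le h hn⟩

open Classical in
/-- Fill the free points of `D` with the values `v`. -/
noncomputable def ovr (r : Cond) (D : Set (K × ℕ)) (v : K × ℕ → Bool)
    (h₁ : (Prod.fst '' D).Countable) (h₂ : ∀ α, {n | (α, n) ∈ D}.Finite) : Cond where
  Y := r.Y
  A := r.A
  s := fun z => if r.s z = none ∧ z ∈ D then some (v z) else r.s z
  hY := r.hY
  hA := r.hA
  hfin := r.hfin
  hgood := r.hgood
  hs := (r.hs.union h₁).mono (by
    rintro α ⟨n, hn⟩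
    by_cases h : r.s (α, n) = none ∧ (α, n) ∈ D
    · exact Or.inr ⟨_, h.2, rfl⟩
    · simp only [if_neg h] at hn
      exact Or.inl ⟨n, hn⟩)
  hfree := fun α => ((r.hfree α).sdiff (h₂ α)).mono (by
    rintro n ⟨h, h'⟩
    have : ¬ (r.s (α, n) = none ∧ (α, n) ∈ D) := fun e => h' e.2
    simp only [mem_ofPred_eq, if_neg this]
    exact h)

section ovr

variable {r : Cond} {D : Set (K × ℕ)} {v : K × ℕ → Bool} {h₁ : (Prod.fst '' D).Countable}
  {h₂ : ∀ α, {n | (α, n) ∈ D}.Finite}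

theorem ovr_s_free {z : K × ℕ} (h : r.s z = none) (hz : z ∈ D) :
    (r.ovr D v h₁ h₂).s z = some (v z) := by
  simp [ovr, h, hz]

theorem ovr_s_some {z : K × ℕ} (h : r.s z ≠ none) : (r.ovr D v h₁ h₂).s z = r.s z := by
  simp [ovr, h]

theorem ovr_s_not {z : K × ℕ} (h : z ∉ D) : (r.ovr D v h₁ h₂).s z = r.s z := by
  simp [ovr, h]

theorem ovr_le : r.ovr D v h₁ h₂ ≤ r :=
  ⟨subset_rfl, subset_rfl, fun _ h h' => absurd h h', fun z b h => by
    rw [ovr_s_some (by simp [h]), h]⟩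

theorem ovr_ne_none {z : K × ℕ} (hz : z ∈ D) : (r.ovr D v h₁ h₂).s z ≠ none := by
  by_cases h : r.s z = none
  · rw [ovr_s_free h hz]; simp
  · rw [ovr_s_some h]; exact h

theorem le_ovr {t : Cond} (ht : t ≤ r) (h : ∀ z ∈ D, r.s z = none → t.s z = some (v z)) :
    t ≤ r.ovr D v h₁ h₂ :=
  ⟨ht.Y, ht.A, ht.good, fun z b e => by
    by_cases h₀ : r.s z = none
    · by_cases hz : z ∈ D
      · rw [ovr_s_free h₀ hz] at e
        rw [← e]; exact h z hz h₀
      · rw [ovr_s_not hz, h₀] at e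
        simp at e
    · rw [ovr_s_some h₀] at e
      exact ht.s z b e⟩

end ovr

theorem fin_rows (F : Finset (K × ℕ)) (α : K) : {n | (α, n) ∈ (F : Set (K × ℕ))}.Finite :=
  (F.finite_toSet.image Prod.snd).subset fun _ hn => ⟨_, hn, rfl⟩

open Classical in
/-- Fill the finite set `F`, with value true exactly on `σ`. -/
noncomputable def fill (r : Cond) (F σ : Finset (K × ℕ)) : Cond :=
  r.ovr F (fun z => decide (z ∈ σ)) (F.finite_toSet.image _).countable (fin_rows F)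

theorem fill_le (r : Cond) (F σ : Finset (K × ℕ)) : r.fill F σ ≤ r := ovr_le

open Classical in
/-- Free the points of `F`. -/
noncomputable def erase (r : Cond) (F : Finset (K × ℕ)) : Cond where
  Y := r.Y
  A := r.A
  s := fun z => if z ∈ F then none else r.s z
  hY := r.hY
  hA := r.hA
  hfin := r.hfin
  hgood := r.hgood
  hs := r.hs.mono (by
    rintro α ⟨n, hn⟩
    refine ⟨n, fun e => hn ?_⟩
    simp [e])
  hfree := fun α => (r.hfree α).mono (by
    intro n h
    simp only [mem_ofPred_eq] at h ⊢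
    simp [h])

def Free (r : Cond) (F : Finset (K × ℕ)) : Prop := ∀ z ∈ F, r.s z = none

def LeF (F : Finset (K × ℕ)) (q p : Cond) : Prop := q ≤ p ∧ q.Free F

theorem fill_s {r : Cond} {F σ : Finset (K × ℕ)} (h : r.Free F) {z : K × ℕ} (hz : z ∈ F) :
    (r.fill F σ).s z = some true ↔ z ∈ σ := by
  unfold fill
  rw [ovr_s_free (h z hz) (by simpa using hz)]
  simp

theorem fill_mono {q p : Cond} {F : Finset (K × ℕ)} (h : LeF F q p) (σ : Finset (K × ℕ)) :
    q.fill F σ ≤ p.fill F σ :=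
  le_ovr ((fill_le q F σ).trans h.1) fun z hz _ => ovr_s_free (h.2 z hz) hz

theorem erase_leF {r t : Cond} {F : Finset (K × ℕ)} (hr : r.Free F) (ht : t ≤ r) :
    LeF F (t.erase F) r := by
  refine ⟨⟨ht.Y, ht.A, ht.good, fun z b e => ?_⟩, fun z hz => by simp [erase, hz]⟩
  have : z ∉ F := fun hz => by rw [hr z hz] at e; simp at e
  simp only [erase, if_neg this]
  exact ht.s z b e

theorem fill_erase_le {r t : Cond} {F σ : Finset (K × ℕ)} (hr : r.Free F)
    (ht : t ≤ r.fill F σ) : (t.erase F).fill F σ ≤ t := by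
  refine ⟨subset_rfl, subset_rfl, fun _ h h' => absurd h h', fun z b e => ?_⟩
  by_cases hz : z ∈ F
  · have h₁ : (t.erase F).s z = none := by simp [erase, hz]
    have h₂ := ht.s z _ (ovr_s_free (hr z hz) (by simpa using hz))
    unfold fill
    rw [ovr_s_free h₁ (by simpa using hz), ← e, h₂]
  · unfold fill
    rw [ovr_s_not (by simpa using hz)]
    simp [erase, hz, e]

theorem amalg (F : Finset (K × ℕ)) (S : Finset (Finset (K × ℕ)))
    (D : Finset (K × ℕ) → Cond → Prop) (mono : ∀ σ p q, q ≤ p → D σ p → D σ q) (r : Cond)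
    (hr : r.Free F) (dense : ∀ σ ∈ S, ∀ t ≤ r.fill F σ, ∃ t' ≤ t, D σ t') :
    ∃ r', LeF F r' r ∧ ∀ σ ∈ S, D σ (r'.fill F σ) := by
  classical
  induction S using Finset.induction_on with
  | empty => exact ⟨r, ⟨le_rfl, hr⟩, by simp⟩
  | insert σ S _ ih =>
    obtain ⟨r₁, h₁, H₁⟩ := ih fun τ hτ => dense τ (Finset.mem_insert_of_mem hτ)
    obtain ⟨t, ht, hD⟩ := dense σ (Finset.mem_insert_self _ _) _ (fill_mono h₁ σ)
    have h₂ := erase_leF h₁.2 (ht.trans (fill_le _ _ _))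
    refine ⟨t.erase F, ⟨h₂.1.trans h₁.1, h₂.2⟩, fun τ hτ => ?_⟩
    rcases Finset.mem_insert.1 hτ with rfl | hτ
    · exact mono _ _ _ (fill_erase_le h₁.2 ht) hD
    · exact mono _ _ _ (fill_mono h₂ τ) (H₁ τ hτ)

open Classical in
theorem le_fill {r t : Cond} {F : Finset (K × ℕ)} (ht : t ≤ r) (hF : ∀ z ∈ F, t.s z ≠ none) :
    t ≤ r.fill F (F.filter fun z => t.s z = some true) := by
  refine le_ovr ht fun z hz _ => ?_
  have hz' : z ∈ F := by simpa using hz
  cases e : t.s z with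
  | none => exact absurd e (hF z hz')
  | some b => cases b <;> simp [hz', e]

theorem exists_dec (t : Cond) (F : Finset (K × ℕ)) : ∃ t' ≤ t, ∀ z ∈ F, t'.s z ≠ none :=
  ⟨t.fill F ∅, fill_le _ _ _, fun _ hz => ovr_ne_none (by simpa using hz)⟩

theorem cover {r t : Cond} (F : Finset (K × ℕ)) (ht : t ≤ r) :
    ∃ σ ∈ F.powerset, ∃ t' ≤ t, t' ≤ r.fill F σ := by
  classical
  obtain ⟨t', h, hF⟩ := exists_dec t F
  exact ⟨_, Finset.mem_powerset.2 (Finset.filter_subset _ _), t', h, le_fill (h.trans ht) hF⟩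

theorem fill_unique {r t : Cond} {F σ τ : Finset (K × ℕ)} (hr : r.Free F) (hσ : σ ∈ F.powerset)
    (hτ : τ ∈ F.powerset) (h₁ : t ≤ r.fill F σ) (h₂ : t ≤ r.fill F τ) : σ = τ := by
  have key : ∀ {σ : Finset (K × ℕ)}, t ≤ r.fill F σ → ∀ z ∈ F, (t.s z = some true ↔ z ∈ σ) := by
    intro σ h z hz
    rw [← fill_s hr hz, eq_of_le h (ovr_ne_none (by simpa using hz))]
  ext z
  constructor
  · intro hz
    have hF := Finset.mem_powerset.1 hσ hz
    exact (key h₂ z hF).1 ((key h₁ z hF).2 hz)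
  · intro hz
    have hF := Finset.mem_powerset.1 hτ hz
    exact (key h₁ z hF).1 ((key h₂ z hF).2 hz)

def addA (r : Cond) (c : ℕ → ℕ) : Cond where
  Y := r.Y
  A := insert c r.A
  s := r.s
  hY := r.hY
  hA := r.hA.insert c
  hfin := r.hfin
  hgood := r.hgood
  hs := r.hs
  hfree := r.hfree

theorem addA_le (r : Cond) (c : ℕ → ℕ) : r.addA c ≤ r :=
  ⟨subset_rfl, subset_insert _ _, fun _ h h' => absurd h h', fun _ _ h => h⟩

def addY (r : Cond) (y : Set ℕ) (hy : Good y c0) : Cond where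
  Y := insert y r.Y
  A := r.A
  s := r.s
  hY := r.hY.insert y
  hA := r.hA
  hfin := fun z hz => Or.inr (r.hfin z hz)
  hgood := by
    rintro z (rfl | hz)
    exacts [hy, r.hgood z hz]
  hs := r.hs
  hfree := r.hfree

theorem addY_le (r : Cond) {y : Set ℕ} (hy : Good y c0) (h : ∀ c ∈ r.A, Good y c) :
    r.addY y hy ≤ r :=
  ⟨subset_insert _ _, subset_rfl, by
    rintro z (rfl | hz) hz' c hc
    exacts [h c hc, absurd hz hz'], fun _ _ h => h⟩

end Cond

/-- Bookkeeping recursion. -/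
theorem book {S T : Type*} (tasks : S → Set T) (hc : ∀ s, (tasks s).Countable)
    (R : ℕ → S → Finset T → S → Prop)
    (step : ∀ k s (L : Finset T), ↑L ⊆ tasks s → ∃ s', R k s L s' ∧ tasks s ⊆ tasks s') (s₀ : S) :
    ∃ (s : ℕ → S) (L : ℕ → Finset T), s 0 = s₀ ∧ (∀ k, R k (s k) (L k) (s (k + 1))) ∧
      ∀ k, ∀ t ∈ tasks (s k), ∀ᶠ m in atTop, t ∈ L m := by
  classical
  have he : ∀ s, ∃ e : ℕ → Finset T, (∀ n, ↑(e n) ⊆ tasks s) ∧
      ∀ t ∈ tasks s, ∀ᶠ n in atTop, t ∈ e n := by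
    intro s
    rcases (tasks s).eq_empty_or_nonempty with h | h
    · exact ⟨fun _ => ∅, by simp, by simp [h]⟩
    · obtain ⟨f, hf⟩ := (hc s).exists_eq_range h
      refine ⟨fun n => (Finset.range n).image f, fun n => ?_, fun t ht => ?_⟩
      · intro t ht
        obtain ⟨i, -, rfl⟩ := Finset.mem_image.1 ht
        rw [hf]; exact mem_range_self i
      · rw [hf] at ht
        obtain ⟨i, rfl⟩ := ht
        filter_upwards [eventually_gt_atTop i] with n hn
        exact Finset.mem_image.2 ⟨i, Finset.mem_range.2 hn, rfl⟩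
  choose e he₁ he₂ using he
  let H := {p : S × List S // ∀ h ∈ p.2, tasks h ⊆ tasks p.1}
  let LL : ℕ → H → Finset T := fun k p => (p.1.1 :: p.1.2).toFinset.biUnion (e · k)
  have hLL : ∀ k p, ↑(LL k p) ⊆ tasks p.1.1 := by
    intro k p t ht
    obtain ⟨h, hh, ht⟩ := Finset.mem_biUnion.1 ht
    rcases List.mem_cons.1 (List.mem_toFinset.1 hh) with rfl | hh
    · exact he₁ _ _ ht
    · exact p.2 h hh (he₁ _ _ ht)
  choose nx h₁ h₂ using fun k (p : H) => step k p.1.1 (LL k p) (hLL k p)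
  let st : ℕ → H → H := fun k p => ⟨(nx k p, p.1.1 :: p.1.2), by
    intro h hh
    rcases List.mem_cons.1 hh with rfl | hh
    · exact h₂ k p
    · exact (p.2 h hh).trans (h₂ k p)⟩
  let P : ℕ → H := fun k => Nat.rec ⟨(s₀, []), by simp⟩ st k
  have hP : ∀ k, P (k + 1) = st k (P k) := fun _ => rfl
  refine ⟨fun k => (P k).1.1, fun k => LL k (P k), rfl, fun k => h₁ k (P k), fun k t ht => ?_⟩
  have hm : ∀ m, k ≤ m → (P k).1.1 ∈ (P m).1.1 :: (P m).1.2 := by
    intro m hm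
    induction m, hm using Nat.le_induction with
    | base => exact List.mem_cons_self
    | succ m _ ih => rw [hP]; exact List.mem_cons_of_mem _ ih
  filter_upwards [he₂ _ t ht, eventually_ge_atTop k] with m a b
  exact Finset.mem_biUnion.2 ⟨_, List.mem_toFinset.2 (hm m b), a⟩

open Cond

/-- A lower bound of a fusion sequence. -/
theorem exists_limit (r : ℕ → Cond) (hr : Antitone r)
    (hfree : ∀ k, ∀ α ∈ (r k).supp, ∀ m, ∃ n ≥ m, ∀ j, (r j).s (α, n) = none) :
    ∃ q : Cond, (∀ k, q ≤ r k) ∧ q.Y = ⋃ k, (r k).Y ∧ q.A = ⋃ k, (r k).A := by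
  classical
  let s : K × ℕ → Option Bool := fun z =>
    if h : ∃ k, (r k).s z ≠ none then (r h.choose).s z else none
  have hs : ∀ k z b, (r k).s z = some b → s z = some b := by
    intro k z b e
    have h : ∃ k, (r k).s z ≠ none := ⟨k, by simp [e]⟩
    simp only [s, dif_pos h]
    rcases le_total k h.choose with h' | h'
    · exact (hr h').s z b e
    · rw [← eq_of_le (hr h') h.choose_spec, e]
  have hn : ∀ z, (∀ k, (r k).s z = none) → s z = none := by
    intro z h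
    have : ¬ ∃ k, (r k).s z ≠ none := by simpa using h
    simp only [s, dif_neg this]
  refine ⟨⟨⋃ k, (r k).Y, ⋃ k, (r k).A, s, countable_iUnion fun k => (r k).hY,
    countable_iUnion fun k => (r k).hA, fun y hy => mem_iUnion.2 ⟨0, (r 0).hfin y hy⟩,
    fun y hy => ?_, ?_, fun α => ?_⟩, fun k => ⟨subset_iUnion (fun k => (r k).Y) k,
    subset_iUnion (fun k => (r k).A) k, fun y hy hy' c hc => ?_, hs k⟩, rfl, rfl⟩
  · obtain ⟨k, hk⟩ := mem_iUnion.1 hy
    exact (r k).hgood y hk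
  · refine (countable_iUnion fun k => (r k).hs).mono ?_
    rintro α ⟨n, h⟩
    by_contra h'
    refine h (hn _ fun k => ?_)
    by_contra h''
    exact h' (mem_iUnion.2 ⟨k, n, h''⟩)
  · by_cases h : ∃ k, α ∈ (r k).supp
    · obtain ⟨k, hk⟩ := h
      refine Set.infinite_of_forall_exists_gt fun m => ?_
      obtain ⟨n, h₁, h₂⟩ := hfree k α hk (m + 1)
      exact ⟨n, hn _ h₂, h₁⟩
    · refine infinite_univ.mono fun n _ => hn _ fun k => ?_
      by_contra h'
      exact h ⟨k, n, h'⟩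
  · obtain ⟨j, hj⟩ := mem_iUnion.1 hy
    exact (hr (le_max_left k j)).good y ((hr (le_max_right k j)).Y hj) hy' c hc

theorem exists_newF (r : Cond) (F : Finset (K × ℕ)) (hF : r.Free F) (L : Finset K) (k : ℕ) :
    ∃ F', F ⊆ F' ∧ r.Free F' ∧ ∀ α ∈ L, ∃ n ≥ k, (α, n) ∈ F' := by
  classical
  have : ∀ α, ∃ n ≥ k, r.s (α, n) = none := fun α => by
    obtain ⟨n, h₁, h₂⟩ := (r.hfree α).exists_gt k
    exact ⟨n, h₂.le, h₁⟩
  choose f h₁ h₂ using this
  refine ⟨F ∪ L.image fun α => (α, f α), Finset.subset_union_left, fun z hz => ?_,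
    fun α hα => ⟨f α, h₁ α, Finset.mem_union_right _ (Finset.mem_image_of_mem _ hα)⟩⟩
  rcases Finset.mem_union.1 hz with hz | hz
  · exact hF z hz
  · obtain ⟨α, -, rfl⟩ := Finset.mem_image.1 hz
    exact h₂ α

/-- The fusion lemma. -/
theorem fusion {St : Type*} (Inv : St → Cond → Prop)
    (R : ℕ → St → Finset (K × ℕ) → Finset (Set ℕ) → Finset (ℕ → ℕ) → St → Cond → Prop)
    (step : ∀ k st r F (LY : Finset (Set ℕ)) (LA : Finset (ℕ → ℕ)), Inv st r → r.Free F →
      ↑LY ⊆ r.Y → ∃ st' r', LeF F r' r ∧ Inv st' r' ∧ R k st F LY LA st' r')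
    (st₀ : St) (r₀ : Cond) (h₀ : Inv st₀ r₀) :
    ∃ (st : ℕ → St) (r : ℕ → Cond) (F : ℕ → Finset (K × ℕ)) (LY : ℕ → Finset (Set ℕ))
      (LA : ℕ → Finset (ℕ → ℕ)) (q : Cond), st 0 = st₀ ∧ q ≤ r₀ ∧ (∀ k, q ≤ r k) ∧
      (∀ k, R k (st k) (F k) (LY k) (LA k) (st (k + 1)) (r (k + 1))) ∧
      (∀ k, (r (k + 1)).Free (F k)) ∧
      (∀ y ∈ q.Y, ∀ᶠ k in atTop, y ∈ LY k) ∧ (∀ c ∈ q.A, ∀ᶠ k in atTop, c ∈ LA k) := by
  classical
  let S := {x : St × Cond × Finset (K × ℕ) // Inv x.1 x.2.1 ∧ x.2.1.Free x.2.2}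
  let T := K ⊕ Set ℕ ⊕ (ℕ → ℕ)
  let iY : Set ℕ → T := fun y => Sum.inr (Sum.inl y)
  let iA : (ℕ → ℕ) → T := fun c => Sum.inr (Sum.inr c)
  have hY : Function.Injective iY := Sum.inr_injective.comp Sum.inl_injective
  have hA : Function.Injective iA := Sum.inr_injective.comp Sum.inr_injective
  let tasks : S → Set T := fun x =>
    Sum.inl '' x.1.2.1.supp ∪ (iY '' x.1.2.1.Y ∪ iA '' x.1.2.1.A)
  obtain ⟨s, L, hs₀, hR, hL⟩ := book tasks
    (fun x => (x.1.2.1.hs.image _).union ((x.1.2.1.hY.image _).union (x.1.2.1.hA.image _)))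
    (fun k x L x' => x.1.2.2 ⊆ x'.1.2.2 ∧ (∀ α, Sum.inl α ∈ L → ∃ n ≥ k, (α, n) ∈ x'.1.2.2) ∧
      x'.1.2.1 ≤ x.1.2.1 ∧
      R k x.1.1 x'.1.2.2 (L.preimage iY hY.injOn) (L.preimage iA hA.injOn) x'.1.1 x'.1.2.1)
    (by
      rintro k ⟨⟨st, r, F⟩, hI, hF⟩ L hL
      obtain ⟨F', h₁, h₂, h₃⟩ := exists_newF r F hF (L.preimage Sum.inl Sum.inl_injective.injOn) k
      obtain ⟨st', r', h₄, h₅, h₆⟩ := step k st r F' (L.preimage iY hY.injOn)
        (L.preimage iA hA.injOn) hI h₂ (by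
          intro y hy
          have := hL (Finset.mem_preimage.1 hy)
          rcases this with ⟨_, -, e⟩ | ⟨y', h, e⟩ | ⟨_, -, e⟩
          · exact absurd e Sum.inl_ne_inr
          · exact hY e ▸ h
          · exact absurd (Sum.inr_injective e) Sum.inr_ne_inl)
      refine ⟨⟨(st', r', F'), h₅, h₄.2⟩, ⟨h₁, fun α hα => h₃ α (Finset.mem_preimage.2 hα),
        h₄.1, h₆⟩, ?_⟩
      exact union_subset_union (image_mono (supp_mono h₄.1))
        (union_subset_union (image_mono h₄.1.Y) (image_mono h₄.1.A)))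
    ⟨(st₀, r₀, ∅), h₀, by simp [Free]⟩
  have anti : Antitone fun k => (s k).1.2.1 := antitone_nat_of_succ_le fun k => (hR k).2.2.1
  have monoF : Monotone fun k => (s k).1.2.2 := monotone_nat_of_le_succ fun k => (hR k).1
  obtain ⟨q, hq, eY, eA⟩ := exists_limit (fun k => (s k).1.2.1) anti (by
    intro k α hα m
    obtain ⟨j, h₁, h₂⟩ := ((hL k (Sum.inl α) (Or.inl ⟨α, hα, rfl⟩)).and
      (eventually_ge_atTop m)).exists
    obtain ⟨n, hn, hF⟩ := (hR j).2.1 α h₁
    refine ⟨n, le_trans h₂ hn, fun i => ?_⟩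
    exact none_of_le (anti (le_max_left i (j + 1)))
      ((s (max i (j + 1))).2.2 _ (monoF (le_max_right i (j + 1)) hF)))
  refine ⟨fun k => (s k).1.1, fun k => (s k).1.2.1, fun k => (s (k + 1)).1.2.2,
    fun k => (L k).preimage iY hY.injOn, fun k => (L k).preimage iA hA.injOn, q,
    by simp [hs₀], by simpa [hs₀] using hq 0, hq, fun k => (hR k).2.2.2,
    fun k => (s (k + 1)).2.2, fun y hy => ?_, fun c hc => ?_⟩
  · rw [eY] at hy
    obtain ⟨k, hk⟩ := mem_iUnion.1 hy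
    filter_upwards [hL k (iY y) (Or.inr (Or.inl ⟨y, hk, rfl⟩))] with m hm
    exact Finset.mem_preimage.2 hm
  · rw [eA] at hc
    obtain ⟨k, hk⟩ := mem_iUnion.1 hc
    filter_upwards [hL k (iA c) (Or.inr (Or.inr ⟨c, hk, rfl⟩))] with m hm
    exact Finset.mem_preimage.2 hm

end Pool.Agent.MP_e258b5_gt
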